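import Pool.Agent.DNeo.Double

/-! An explicit base for the doubling theorem. -/

namespace Pool.Agent.DNeo

/-- Offsets of the base with 36 rows. -/
def pa36 (r : ℕ) : ℤ := ([26, 11, 39, 53, 37, 70, 22, 48, 2, 42, 60, -16, 59, 69, 9, 57, 70, 54, 53, 41, 48, 37, 64, 26, 67, 86, 11, 22, 69, 64, 86, 67, 54, 27, 7, 43, 80] : List ℤ).getD r 0

/-- Bits of the base with 36 rows. -/
def pj36 (r : ℕ) : ℤ := ([0, 0, 0, 0, 0, 1, 0, 1, 1, 1, 1, 1, 1, 1, 0, 0, 0, 1, 1, 1, 0, 1, 1, 1, 1, 1, 1, 1, 0, 0, 0, 0, 0, 0, 0, 0, 0] : List ℤ).getD r 0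

/-- Labels of the base with 36 rows. -/
def pe36 (r : ℕ) : ℤ := ([3, 1, -1, 1, -1, 3, -1, 3, 1, -1, 1, -1, 1, 3, -1, 1, 3, -1, 1, -1, 3, -1, 1, 3, 1, 3, 1, -1, 3, 1, 3, 1, -1, 1, -1, 1, 3] : List ℤ).getD r 0

/-- Positions of the base with 36 rows. -/
def pp36 (r : ℕ) : ℤ := ([1, 2, 10, 12, 14, 7, 15, 3, 17, 13, 13, 17, 8, 4, 16, 10, 7, 9, 12, 8, 3, 14, 11, 1, 6, 5, 2, 15, 4, 11, 5, 6, 9, 16, 18, 0] : List ℤ).getD r 0

lemma pbase36 : PBase 18 6 pa36 pj36 pe36 pp36 where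
  base :=
    { ext_α := by decide +kernel
      ext_J := by decide +kernel
      ext_ε := by decide +kernel
      odd := by decide +kernel
      dvd_F := by decide +kernel
      dvd_G := by decide +kernel
      dvd_D := by decide +kernel
      F := by decide +kernel
      G := by decide +kernel
      S := by decide +kernel
      D := by decide +kernel }
  e0 := by decide +kernel
  p0 := by decide +kernel
  p1 := by decide +kernel
  th := by decide +kernel
  pF := by decide +kernel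
  pG := by decide +kernel

end Pool.Agent.DNeo
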