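import Pool.Agent.DNeo.Product

/-! Explicit labelled bases. -/

namespace Pool.Agent.DNeo

/-- Offsets of the base with 8 rows. -/
def a8 (r : ℕ) : ℤ := ([0, 2, -7, -11, 2, 0, -5, 3, 12] : List ℤ).getD r 0

/-- Bits of the base with 8 rows. -/
def j8 (r : ℕ) : ℤ := ([0, 0, 1, 1, 1, 1, 0, 0, 0] : List ℤ).getD r 0

/-- Labels of the base with 8 rows. -/
def e8 (r : ℕ) : ℤ := ([3, 5, 1, -1, 5, 3, -1, 1, 3] : List ℤ).getD r 0

lemma base8 : LBase 4 30 a8 j8 e8 where
  ext_α := by decide +kernel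
  ext_J := by decide +kernel
  ext_ε := by decide +kernel
  odd := by decide +kernel
  dvd_F := by decide +kernel
  dvd_G := by decide +kernel
  dvd_D := by decide +kernel
  F := by decide +kernel
  G := by decide +kernel
  S := by decide +kernel
  D := by decide +kernel

/-- Offsets of the base with 12 rows. -/
def a12 (r : ℕ) : ℤ := ([0, -9, -15, 2, -11, -2, 2, -8, 0, -5, -7, 5, 18] : List ℤ).getD r 0

/-- Bits of the base with 12 rows. -/
def j12 (r : ℕ) : ℤ := ([0, 1, 1, 0, 1, 0, 1, 0, 1, 1, 0, 0, 0] : List ℤ).getD r 0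

/-- Labels of the base with 12 rows. -/
def e12 (r : ℕ) : ℤ := ([3, 1, -1, 3, -1, 1, 3, -1, 3, 1, -1, 1, 3] : List ℤ).getD r 0

lemma base12 : LBase 6 6 a12 j12 e12 where
  ext_α := by decide +kernel
  ext_J := by decide +kernel
  ext_ε := by decide +kernel
  odd := by decide +kernel
  dvd_F := by decide +kernel
  dvd_G := by decide +kernel
  dvd_D := by decide +kernel
  F := by decide +kernel
  G := by decide +kernel
  S := by decide +kernel
  D := by decide +kernel

/-- Offsets of the base with 14 rows. -/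
def a14 (r : ℕ) : ℤ := ([0, -11, -18, -9, -19, -3, -12, -16, -3, -6, 0, -6, -8, 6, 21] : List ℤ).getD r 0

/-- Bits of the base with 14 rows. -/
def j14 (r : ℕ) : ℤ := ([0, 1, 1, 0, 1, 0, 1, 0, 1, 0, 1, 1, 0, 0, 0] : List ℤ).getD r 0

/-- Labels of the base with 14 rows. -/
def e14 (r : ℕ) : ℤ := ([3, 1, -1, 1, -1, 3, 1, -1, 3, 1, 3, 1, -1, 1, 3] : List ℤ).getD r 0

lemma base14 : LBase 7 6 a14 j14 e14 where
  ext_α := by decide +kernel
  ext_J := by decide +kernel
  ext_ε := by decide +kernel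
  odd := by decide +kernel
  dvd_F := by decide +kernel
  dvd_G := by decide +kernel
  dvd_D := by decide +kernel
  F := by decide +kernel
  G := by decide +kernel
  S := by decide +kernel
  D := by decide +kernel

/-- Offsets of the base with 18 rows. -/
def a18 (r : ℕ) : ℤ := ([0, -5, -24, -4, -16, 0, -16, 1, -12, -3, 7, -5, 7, -15, -8, -4, -10, 8, 27] : List ℤ).getD r 0

/-- Bits of the base with 18 rows. -/
def j18 (r : ℕ) : ℤ := ([0, 1, 1, 0, 0, 1, 1, 0, 1, 1, 1, 0, 0, 1, 0, 1, 0, 0, 0] : List ℤ).getD r 0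

/-- Labels of the base with 18 rows. -/
def e18 (r : ℕ) : ℤ := ([3, 1, -1, 3, -1, 3, -1, 1, -1, 1, 3, 1, 3, 1, -1, 3, -1, 1, 3] : List ℤ).getD r 0

lemma base18 : LBase 9 6 a18 j18 e18 where
  ext_α := by decide +kernel
  ext_J := by decide +kernel
  ext_ε := by decide +kernel
  odd := by decide +kernel
  dvd_F := by decide +kernel
  dvd_G := by decide +kernel
  dvd_D := by decide +kernel
  F := by decide +kernel
  G := by decide +kernel
  S := by decide +kernel
  D := by decide +kernel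

/-- Offsets of the base with 20 rows. -/
def a20 (r : ℕ) : ℤ := ([0, -14, -24, -12, 2, -9, 4, -19, 0, -12, -17, 7, -15, 2, -15, 7, -7, 4, -11, 9, 30] : List ℤ).getD r 0

/-- Bits of the base with 20 rows. -/
def j20 (r : ℕ) : ℤ := ([0, 0, 0, 1, 1, 1, 0, 1, 1, 0, 1, 1, 0, 0, 1, 0, 1, 1, 0, 0, 0] : List ℤ).getD r 0

/-- Labels of the base with 20 rows. -/
def e20 (r : ℕ) : ℤ := ([3, 1, -1, 1, 3, 1, 3, -1, 3, 1, -1, 3, -1, 3, -1, 3, 1, 3, -1, 1, 3] : List ℤ).getD r 0

lemma base20 : LBase 10 6 a20 j20 e20 where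
  ext_α := by decide +kernel
  ext_J := by decide +kernel
  ext_ε := by decide +kernel
  odd := by decide +kernel
  dvd_F := by decide +kernel
  dvd_G := by decide +kernel
  dvd_D := by decide +kernel
  F := by decide +kernel
  G := by decide +kernel
  S := by decide +kernel
  D := by decide +kernel

/-- Offsets of the base with 22 rows. -/
def a22 (r : ℕ) : ℤ := ([0, -18, -21, -15, -35, -19, -42, -24, 0, -15, -29, -25, -36, -5, -6, -19, -16, -21, -31, -6, -12, 10, 33] : List ℤ).getD r 0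

/-- Bits of the base with 22 rows. -/
def j22 (r : ℕ) : ℤ := ([0, 1, 1, 0, 0, 0, 0, 0, 1, 1, 1, 1, 1, 1, 0, 1, 1, 0, 0, 1, 0, 0, 0] : List ℤ).getD r 0

/-- Labels of the base with 22 rows. -/
def e22 (r : ℕ) : ℤ := ([3, 1, 3, 1, -1, 1, -1, 1, 3, 1, -1, 1, -1, 1, 3, 1, -1, 3, 1, 3, -1, 1, 3] : List ℤ).getD r 0

lemma base22 : LBase 11 6 a22 j22 e22 where
  ext_α := by decide +kernel
  ext_J := by decide +kernel
  ext_ε := by decide +kernel
  odd := by decide +kernel
  dvd_F := by decide +kernel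
  dvd_G := by decide +kernel
  dvd_D := by decide +kernel
  F := by decide +kernel
  G := by decide +kernel
  S := by decide +kernel
  D := by decide +kernel

/-- Offsets of the base with 24 rows. -/
def a24 (r : ℕ) : ℤ := ([6, -21, -14, -16, 16, -16, -14, -15, -3, -12, 6, 11, -17, 14, 0, 13, -9, 14, -1, 16, -5, 13, -7, 17, 42] : List ℤ).getD r 0

/-- Bits of the base with 24 rows. -/
def j24 (r : ℕ) : ℤ := ([0, 0, 1, 1, 0, 0, 0, 1, 1, 1, 1, 0, 1, 1, 1, 1, 0, 0, 0, 1, 1, 0, 0, 0, 0] : List ℤ).getD r 0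

/-- Labels of the base with 24 rows. -/
def e24 (r : ℕ) : ℤ := ([3, -1, 1, -1, 3, -1, 1, -1, 1, -1, 3, 1, -1, 3, 1, 3, 1, 3, -1, 3, 1, 3, -1, 1, 3] : List ℤ).getD r 0

lemma base24 : LBase 12 6 a24 j24 e24 where
  ext_α := by decide +kernel
  ext_J := by decide +kernel
  ext_ε := by decide +kernel
  odd := by decide +kernel
  dvd_F := by decide +kernel
  dvd_G := by decide +kernel
  dvd_D := by decide +kernel
  F := by decide +kernel
  G := by decide +kernel
  S := by decide +kernel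
  D := by decide +kernel

/-- Offsets of the base with 26 rows. -/
def a26 (r : ℕ) : ℤ := ([11, -9, -7, -9, 1, -32, -7, -19, 11, -21, -10, 8, 0, -17, -8, 8, -11, -14, -27, 1, -17, 0, -23, 2, -3, 23, 50] : List ℤ).getD r 0

/-- Bits of the base with 26 rows. -/
def j26 (r : ℕ) : ℤ := ([1, 0, 1, 1, 1, 0, 0, 0, 0, 1, 1, 0, 0, 0, 1, 1, 0, 0, 0, 0, 1, 1, 1, 0, 1, 1, 1] : List ℤ).getD r 0

/-- Labels of the base with 26 rows. -/
def e26 (r : ℕ) : ℤ := ([3, 1, 3, 1, 3, -1, 3, 1, 3, -1, 1, 3, 1, -1, 1, 3, -1, 1, -1, 3, -1, 1, -1, 1, -1, 1, 3] : List ℤ).getD r 0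

lemma base26 : LBase 13 6 a26 j26 e26 where
  ext_α := by decide +kernel
  ext_J := by decide +kernel
  ext_ε := by decide +kernel
  odd := by decide +kernel
  dvd_F := by decide +kernel
  dvd_G := by decide +kernel
  dvd_D := by decide +kernel
  F := by decide +kernel
  G := by decide +kernel
  S := by decide +kernel
  D := by decide +kernel

/-- Offsets of the base with 28 rows. -/
def a28 (r : ℕ) : ℤ := ([15, -31, -9, -23, -10, -2, -18, 2, -16, -21, -10, 6, 9, -15, -18, 8, -35, -17, 17, 8, 17, 6, -29, 15, 2, 9, 0, 28, 57] : List ℤ).getD r 0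

/-- Bits of the base with 28 rows. -/
def j28 (r : ℕ) : ℤ := ([1, 0, 0, 0, 1, 1, 0, 1, 1, 0, 0, 0, 1, 1, 1, 0, 0, 0, 1, 1, 0, 1, 1, 0, 0, 0, 1, 1, 1] : List ℤ).getD r 0

/-- Labels of the base with 28 rows. -/
def e28 (r : ℕ) : ℤ := ([3, -1, 1, -1, 3, 1, -1, 1, -1, 1, 3, 1, 3, 1, -1, 1, -1, 1, 3, 1, 3, 1, -1, 3, 1, 3, -1, 1, 3] : List ℤ).getD r 0

lemma base28 : LBase 14 6 a28 j28 e28 where
  ext_α := by decide +kernel
  ext_J := by decide +kernel
  ext_ε := by decide +kernel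
  odd := by decide +kernel
  dvd_F := by decide +kernel
  dvd_G := by decide +kernel
  dvd_D := by decide +kernel
  F := by decide +kernel
  G := by decide +kernel
  S := by decide +kernel
  D := by decide +kernel

/-- Offsets of the base with 30 rows. -/
def a30 (r : ℕ) : ℤ := ([-6, -18, -11, -16, -42, 6, -42, -6, -40, -18, -28, -11, -25, -2, 0, -31, -23, -38, 6, -13, -4, -29, -4, -15, -2, -5, -29, -5, -22, 8, 39] : List ℤ).getD r 0

/-- Bits of the base with 30 rows. -/
def j30 (r : ℕ) : ℤ := ([1, 0, 1, 1, 0, 0, 1, 0, 0, 1, 1, 0, 0, 1, 0, 1, 0, 0, 1, 1, 0, 0, 1, 0, 0, 1, 1, 0, 1, 1, 1] : List ℤ).getD r 0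

/-- Labels of the base with 30 rows. -/
def e30 (r : ℕ) : ℤ := ([3, 1, 3, 1, -1, 3, -1, 3, -1, 1, -1, 3, 1, 3, 1, -1, 1, -1, 3, 1, 3, -1, 3, -1, 3, 1, -1, 1, -1, 1, 3] : List ℤ).getD r 0

lemma base30 : LBase 15 6 a30 j30 e30 where
  ext_α := by decide +kernel
  ext_J := by decide +kernel
  ext_ε := by decide +kernel
  odd := by decide +kernel
  dvd_F := by decide +kernel
  dvd_G := by decide +kernel
  dvd_D := by decide +kernel
  F := by decide +kernel
  G := by decide +kernel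
  S := by decide +kernel
  D := by decide +kernel

end Pool.Agent.DNeo
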