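import Mathlib

/-!
Neofields, property D, and the construction of a D-neofield from a sequence.
-/

namespace Pool.Agent.DNeo

/-- `IsNeofield J`: with the multiplication and the zero of `J` (for which `J ∖ {0}` is a group) and the
addition of `J`, the set `J` is a neofield: `(J, +)` is a loop with identity `0` and both distributive
laws hold. -/
structure IsNeofield (J : Type) [GroupWithZero J] [Add J] : Prop where
  zero_add : ∀ a : J, 0 + a = a
  add_zero : ∀ a : J, a + 0 = a
  left_loop : ∀ a b : J, ∃! y : J, a + y = b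
  right_loop : ∀ a b : J, ∃! y : J, y + a = b
  left_distrib : ∀ a b c : J, a * (b + c) = a * b + a * c
  right_distrib : ∀ a b c : J, (b + c) * a = b * a + c * a

/-- `x` generates the group `J ∖ {0}`, which is therefore cyclic. -/
def IsGenerator {J : Type} [GroupWithZero J] (x : J) : Prop :=
  x ≠ 0 ∧ ∀ y : J, y ≠ 0 → ∃ k : ℤ, x ^ k = y

/-- The divisibility property (property D) with respect to `x`; exponents are read modulo
`r - 1`, where `r` is the order of `J`. -/
def PropertyD {J : Type} [GroupWithZero J] [Add J] (x : J) : Prop :=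
  ∃ s : ℤ, 1 + x ^ s = 0 ∧ ∀ t u : ℤ,
    ¬ t ≡ s [ZMOD ((Nat.card J : ℤ) - 1)] → ¬ t ≡ s + 1 [ZMOD ((Nat.card J : ℤ) - 1)] →
    ¬ u ≡ s [ZMOD ((Nat.card J : ℤ) - 1)] → ¬ u ≡ s + 1 [ZMOD ((Nat.card J : ℤ) - 1)] →
    (1 + x ^ t) / (1 + x ^ (t - 1)) = (1 + x ^ u) / (1 + x ^ (u - 1)) →
    t ≡ u [ZMOD ((Nat.card J : ℤ) - 1)]

/-- There is a D-neofield of order `r`. -/
def ExistsDNeofield (r : ℕ) : Prop :=
  ∃ (J : Type) (_ : GroupWithZero J) (_ : Add J),
    Nat.card J = r ∧ IsNeofield J ∧ ∃ x : J, IsGenerator x ∧ PropertyD x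

section construction

open WithZero

variable {n : ℕ} [NeZero n]

/-- The map `z ↦ 1 + z`. -/
noncomputable def Nmap (s0 : ZMod n) (φ : ZMod n → ZMod n) (z : WithZero (Multiplicative (ZMod n))) :
    WithZero (Multiplicative (ZMod n)) :=
  if z = 0 then 1 else if log z = s0 then 0 else exp (φ (log z))

/-- The addition. -/
noncomputable def addOf (s0 : ZMod n) (φ : ZMod n → ZMod n)
    (a b : WithZero (Multiplicative (ZMod n))) : WithZero (Multiplicative (ZMod n)) :=
  if a = 0 then b else a * Nmap s0 φ (a⁻¹ * b)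

variable {s0 : ZMod n} {φ : ZMod n → ZMod n}

omit [NeZero n] in
lemma Nmap_zero : Nmap s0 φ 0 = 1 := by simp [Nmap]

omit [NeZero n] in
lemma Nmap_exp_of_ne {t : ZMod n} (h : t ≠ s0) : Nmap s0 φ (exp t) = exp (φ t) := by
  simp [Nmap, exp_ne_zero, h]

omit [NeZero n] in
lemma Nmap_exp_self : Nmap s0 φ (exp s0) = 0 := by
  simp [Nmap, exp_ne_zero]

omit [NeZero n] in
lemma Nmap_injective (h0 : ∀ t, t ≠ s0 → φ t ≠ 0)
    (hi : ∀ t u, t ≠ s0 → u ≠ s0 → φ t = φ u → t = u) : Function.Injective (Nmap s0 φ) := by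
  intro a b hab
  rcases eq_or_ne a 0 with ha | ha
  · rcases eq_or_ne b 0 with hb | hb
    · rw [ha, hb]
    · exfalso
      obtain ⟨u, rfl⟩ : ∃ u, b = exp u := ⟨log b, (exp_log hb).symm⟩
      subst ha
      rw [Nmap_zero] at hab
      rcases eq_or_ne u s0 with hu | hu
      · subst hu; rw [Nmap_exp_self] at hab; exact one_ne_zero hab
      · rw [Nmap_exp_of_ne hu] at hab
        exact h0 u hu (exp_eq_one.mp hab.symm)
  · obtain ⟨t, rfl⟩ : ∃ t, a = exp t := ⟨log a, (exp_log ha).symm⟩
    rcases eq_or_ne b 0 with hb | hb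
    · exfalso
      subst hb
      rw [Nmap_zero] at hab
      rcases eq_or_ne t s0 with hu | hu
      · subst hu; rw [Nmap_exp_self] at hab; exact zero_ne_one hab
      · rw [Nmap_exp_of_ne hu] at hab
        exact h0 t hu (exp_eq_one.mp hab)
    · obtain ⟨u, rfl⟩ : ∃ u, b = exp u := ⟨log b, (exp_log hb).symm⟩
      rcases eq_or_ne t s0 with ht | ht
      · rcases eq_or_ne u s0 with hu | hu
        · rw [ht, hu]
        · exfalso
          rw [ht, Nmap_exp_self, Nmap_exp_of_ne hu] at hab
          exact exp_ne_zero hab.symm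
      · rcases eq_or_ne u s0 with hu | hu
        · exfalso
          rw [hu, Nmap_exp_self, Nmap_exp_of_ne ht] at hab
          exact exp_ne_zero hab
        · rw [Nmap_exp_of_ne ht, Nmap_exp_of_ne hu, exp_inj] at hab
          rw [hi t u ht hu hab]

omit [NeZero n] in
/-- The map `w ↦ w + 1`. -/
lemma Rmap_injective (h0 : ∀ t, t ≠ s0 → φ t ≠ t)
    (hi : ∀ t u, t ≠ s0 → u ≠ s0 → φ t - t = φ u - u → t = u) :
    Function.Injective (fun w => addOf s0 φ w 1) := by
  have key0 : addOf s0 φ 0 1 = 1 := by simp [addOf]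
  have key1 : ∀ t : ZMod n, addOf s0 φ (exp (-t)) 1 = exp (-t) * Nmap s0 φ (exp t) := by
    intro t
    rw [addOf, if_neg exp_ne_zero, mul_one, ← exp_neg, neg_neg]
  have key2 : ∀ t : ZMod n, t ≠ s0 → addOf s0 φ (exp (-t)) 1 = exp (φ t - t) := by
    intro t ht
    rw [key1, Nmap_exp_of_ne ht, ← exp_add]; congr 1; ring
  have key3 : addOf s0 φ (exp (-s0)) 1 = 0 := by
    rw [key1, Nmap_exp_self, mul_zero]
  intro a b hab
  simp only at hab
  rcases eq_or_ne a 0 with ha | ha
  · rcases eq_or_ne b 0 with hb | hb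
    · rw [ha, hb]
    · exfalso
      obtain ⟨u, rfl⟩ : ∃ u, b = exp (-u) := ⟨-log b, by rw [neg_neg]; exact (exp_log hb).symm⟩
      subst ha
      rw [key0] at hab
      rcases eq_or_ne u s0 with hu | hu
      · subst hu; rw [key3] at hab; exact one_ne_zero hab
      · rw [key2 u hu] at hab
        exact h0 u hu (sub_eq_zero.mp (exp_eq_one.mp hab.symm))
  · obtain ⟨t, rfl⟩ : ∃ t, a = exp (-t) := ⟨-log a, by rw [neg_neg]; exact (exp_log ha).symm⟩
    rcases eq_or_ne b 0 with hb | hb
    · exfalso
      subst hb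
      rw [key0] at hab
      rcases eq_or_ne t s0 with hu | hu
      · subst hu; rw [key3] at hab; exact zero_ne_one hab
      · rw [key2 t hu] at hab
        exact h0 t hu (sub_eq_zero.mp (exp_eq_one.mp hab))
    · obtain ⟨u, rfl⟩ : ∃ u, b = exp (-u) := ⟨-log b, by rw [neg_neg]; exact (exp_log hb).symm⟩
      rcases eq_or_ne t s0 with ht | ht
      · rcases eq_or_ne u s0 with hu | hu
        · rw [ht, hu]
        · exfalso
          rw [ht, key3, key2 u hu] at hab
          exact exp_ne_zero hab.symm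
      · rcases eq_or_ne u s0 with hu | hu
        · exfalso
          rw [hu, key3, key2 t ht] at hab
          exact exp_ne_zero hab
        · rw [key2 t ht, key2 u hu, exp_inj] at hab
          rw [hi t u ht hu hab]

/-- The main construction: a presentation function with the four injectivity properties and the
difference property gives a D-neofield of order `n + 1`. -/
theorem existsDNeofield_of_fun (s0 : ZMod n) (φ : ZMod n → ZMod n)
    (h0 : ∀ t, t ≠ s0 → φ t ≠ 0)
    (hi : ∀ t u, t ≠ s0 → u ≠ s0 → φ t = φ u → t = u)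
    (k0 : ∀ t, t ≠ s0 → φ t ≠ t)
    (ki : ∀ t u, t ≠ s0 → u ≠ s0 → φ t - t = φ u - u → t = u)
    (hD : ∀ t u, t ≠ s0 → t ≠ s0 + 1 → u ≠ s0 → u ≠ s0 + 1 →
      φ t - φ (t - 1) = φ u - φ (u - 1) → t = u) :
    ExistsDNeofield (n + 1) := by
  classical
  let addI : Add (WithZero (Multiplicative (ZMod n))) := ⟨addOf s0 φ⟩
  have : Finite (WithZero (Multiplicative (ZMod n))) :=
    inferInstanceAs (Finite (Option (ZMod n)))
  have hadd : ∀ a b : WithZero (Multiplicative (ZMod n)), a + b = addOf s0 φ a b := fun a b => rfl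
  have hcard : Nat.card (WithZero (Multiplicative (ZMod n))) = n + 1 := by
    have : Nat.card (WithZero (Multiplicative (ZMod n))) = Nat.card (Option (ZMod n)) := rfl
    rw [this, Finite.card_option, Nat.card_zmod]
  have hNinj := Nmap_injective h0 hi
  have hNbij : Function.Bijective (Nmap s0 φ) := Finite.injective_iff_bijective.mp hNinj
  have hRinj := Rmap_injective k0 ki
  have hRbij : Function.Bijective (fun w => addOf s0 φ w 1) := Finite.injective_iff_bijective.mp hRinj
  have hzadd : ∀ a : WithZero (Multiplicative (ZMod n)), 0 + a = a := by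
    intro a; rw [hadd, addOf, if_pos rfl]
  have haddz : ∀ a : WithZero (Multiplicative (ZMod n)), a + 0 = a := by
    intro a
    rw [hadd, addOf]
    split_ifs with h
    · rw [h]
    · rw [mul_zero, Nmap_zero, mul_one]
  have hld : ∀ a b c : WithZero (Multiplicative (ZMod n)), a * (b + c) = a * b + a * c := by
    intro a b c
    rcases eq_or_ne a 0 with ha | ha
    · subst ha; rw [zero_mul, zero_mul, zero_mul, hzadd]
    · rcases eq_or_ne b 0 with hb | hb
      · subst hb; rw [mul_zero, hzadd, hzadd]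
      · rw [hadd, hadd, addOf, addOf, if_neg hb, if_neg (mul_ne_zero ha hb)]
        have : (a * b)⁻¹ * (a * c) = b⁻¹ * c := by
          rw [mul_inv]
          field_simp
        rw [this, mul_assoc]
  have hexp1 : ∀ t : ZMod n, (1 : WithZero (Multiplicative (ZMod n))) + exp t = Nmap s0 φ (exp t) := by
    intro t
    rw [hadd, addOf, if_neg one_ne_zero, inv_one, one_mul, one_mul]
  have hpow : ∀ t : ℤ, (exp (1 : ZMod n)) ^ t = exp (t : ZMod n) := by
    intro t
    rw [← exp_zsmul]; congr 1; simp
  refine ⟨WithZero (Multiplicative (ZMod n)), inferInstance, addI, hcard, ?_, exp 1, ?_, ?_⟩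
  · refine ⟨hzadd, haddz, ?_, ?_, hld, ?_⟩
    · intro a b
      rcases eq_or_ne a 0 with ha | ha
      · subst ha
        exact ⟨b, hzadd b, fun y hy => by simpa [hzadd] using hy⟩
      · obtain ⟨z, hz⟩ := hNbij.2 (a⁻¹ * b)
        refine ⟨a * z, ?_, ?_⟩
        · simp only [hadd, addOf, if_neg ha]
          rw [inv_mul_cancel_left₀ ha, hz, mul_inv_cancel_left₀ ha]
        · intro y hy
          simp only [hadd, addOf, if_neg ha] at hy
          have : Nmap s0 φ (a⁻¹ * y) = Nmap s0 φ z := by
            rw [hz, ← hy, inv_mul_cancel_left₀ ha]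
          rw [← hNinj this, mul_inv_cancel_left₀ ha]
    · intro a b
      rcases eq_or_ne a 0 with ha | ha
      · subst ha
        exact ⟨b, haddz b, fun y hy => by simpa [haddz] using hy⟩
      · have key : ∀ y, y + a = a * (addOf s0 φ (a⁻¹ * y) 1) := by
          intro y
          have h1 := hld a (a⁻¹ * y) 1
          rw [mul_inv_cancel_left₀ ha, mul_one] at h1
          rw [← h1, hadd]
        obtain ⟨w, hw⟩ := hRbij.2 (a⁻¹ * b)
        simp only at hw
        refine ⟨a * w, ?_, ?_⟩
        · simp only [key]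
          rw [inv_mul_cancel_left₀ ha, hw, mul_inv_cancel_left₀ ha]
        · intro y hy
          simp only [key] at hy
          have : addOf s0 φ (a⁻¹ * y) 1 = addOf s0 φ w 1 := by
            rw [hw, ← hy, inv_mul_cancel_left₀ ha]
          have h2 := hRinj this
          rw [← h2, mul_inv_cancel_left₀ ha]
    · intro a b c
      rw [mul_comm, hld, mul_comm a b, mul_comm a c]
  · refine ⟨exp_ne_zero, fun y hy => ⟨((log y).val : ℤ), ?_⟩⟩
    rw [hpow]
    have : (((log y).val : ℤ) : ZMod n) = log y := by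
      rw [Int.cast_natCast, ZMod.natCast_zmod_val]
    rw [this, exp_log hy]
  · refine ⟨(s0.val : ℤ), ?_, ?_⟩
    · rw [hpow, hexp1, Int.cast_natCast, ZMod.natCast_zmod_val, Nmap_exp_self]
    · intro t u ht1 ht2 hu1 hu2 heq
      have hm : ((Nat.card (WithZero (Multiplicative (ZMod n))) : ℤ) - 1) = (n : ℤ) := by
        rw [hcard]; push_cast; ring
      rw [hm] at ht1 ht2 hu1 hu2 ⊢
      have conv : ∀ a b : ℤ, (a ≡ b [ZMOD n]) ↔ ((a : ZMod n) = (b : ZMod n)) := fun a b =>
        (ZMod.intCast_eq_intCast_iff a b n).symm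
      have hs : (((s0.val : ℤ)) : ZMod n) = s0 := by
        rw [Int.cast_natCast, ZMod.natCast_zmod_val]
      rw [conv] at ht1 ht2 hu1 hu2 ⊢
      rw [hs] at ht1 hu1
      rw [Int.cast_add, hs, Int.cast_one] at ht2 hu2
      have ht3 : ((t : ZMod n) - 1) ≠ s0 := fun h => ht2 (by rw [← h]; ring)
      have hu3 : ((u : ZMod n) - 1) ≠ s0 := fun h => hu2 (by rw [← h]; ring)
      rw [hpow, hpow, hpow, hpow, hexp1, hexp1, hexp1, hexp1] at heq
      rw [Int.cast_sub, Int.cast_sub, Int.cast_one, Nmap_exp_of_ne ht1, Nmap_exp_of_ne hu1,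
        Nmap_exp_of_ne ht3, Nmap_exp_of_ne hu3, ← exp_sub, ← exp_sub, exp_inj] at heq
      exact hD _ _ ht1 ht2 hu1 hu2 heq

/-- A D-neofield of order `n + 1` from a sequence `f 0, …, f (n - 2)` of residues modulo `n` such that
the `f i`, the `f i - i` and the successive differences are each pairwise distinct. -/
theorem existsDNeofield_of_seq (n : ℕ) (hn : 2 ≤ n) (f : ℕ → ZMod n)
    (h1 : ∀ i j, i + 1 < n → j + 1 < n → f i = f j → i = j)
    (h2 : ∀ i j, i + 1 < n → j + 1 < n → f i - (i : ZMod n) = f j - (j : ZMod n) → i = j)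
    (h3 : ∀ i j, i + 2 < n → j + 2 < n → f (i + 1) - f i = f (j + 1) - f j → i = j) :
    ExistsDNeofield (n + 1) := by
  classical
  have : NeZero n := ⟨by omega⟩
  have miss : ∀ g : ℕ → ZMod n, ∃ a : ZMod n, ∀ i, i + 1 < n → g i ≠ a := by
    intro g
    by_contra hcon
    push Not at hcon
    have hsub : (Finset.univ : Finset (ZMod n)) ⊆ (Finset.range (n - 1)).image g := by
      intro a _
      obtain ⟨i, hi, hia⟩ := hcon a
      exact Finset.mem_image.mpr ⟨i, Finset.mem_range.mpr (by omega), hia⟩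
    have hc := Finset.card_le_card hsub
    have hc2 : ((Finset.range (n - 1)).image g).card ≤ n - 1 := by
      refine Finset.card_image_le.trans ?_
      simp
    rw [Finset.card_univ, ZMod.card] at hc
    omega
  obtain ⟨a, ha⟩ := miss f
  obtain ⟨b, hb⟩ := miss (fun i => f i - a - (i : ZMod n))
  have hval : ∀ t : ZMod n, t ≠ b - 1 → (t - b).val + 1 < n := by
    intro t ht
    have hlt : (t - b).val < n := ZMod.val_lt _
    rcases Nat.lt_or_ge ((t - b).val + 1) n with h | h
    · exact h
    · exfalso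
      apply ht
      have h4 : (t - b).val + 1 = n := by omega
      have h5 : (((t - b).val + 1 : ℕ) : ZMod n) = 0 := by rw [h4]; simp
      rw [Nat.cast_add, ZMod.natCast_zmod_val, Nat.cast_one] at h5
      have : t - (b - 1) = 0 := by rw [← h5]; ring
      exact sub_eq_zero.mp this
  have hcast : ∀ t : ZMod n, (((t - b).val : ℕ) : ZMod n) = t - b := fun t =>
    ZMod.natCast_zmod_val _
  refine existsDNeofield_of_fun (b - 1) (fun t => f (t - b).val - a) ?_ ?_ ?_ ?_ ?_
  · intro t ht h
    exact ha _ (hval t ht) (sub_eq_zero.mp h)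
  · intro t u ht hu h
    have h' : f (t - b).val = f (u - b).val := by
      simpa using h
    have h6 := h1 _ _ (hval t ht) (hval u hu) h'
    have h7 := ZMod.val_injective n h6
    simpa using h7
  · intro t ht h
    refine hb _ (hval t ht) ?_
    rw [h, hcast]; ring
  · intro t u ht hu h
    have h6 := h2 _ _ (hval t ht) (hval u hu) (by
      rw [hcast, hcast]
      have e1 : f (t - b).val - (t - b) = (f (t - b).val - a - t) + (a + b) := by ring
      have e2 : f (u - b).val - (u - b) = (f (u - b).val - a - u) + (a + b) := by ring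
      rw [e1, e2, h])
    have h7 := ZMod.val_injective n h6
    simpa using h7
  · intro t u ht1 ht2 hu1 hu2 h
    have step : ∀ t : ZMod n, t ≠ b - 1 → t ≠ b - 1 + 1 →
        ∃ k, k + 2 < n ∧ (t - b).val = k + 1 ∧ (t - 1 - b).val = k := by
      intro t h8 h9
      have h10 := hval t h8
      have h11 : (t - b).val ≠ 0 := by
        intro h12
        rw [ZMod.val_eq_zero] at h12
        apply h9
        rw [sub_eq_zero.mp h12]; ring
      obtain ⟨k, hk⟩ := Nat.exists_eq_succ_of_ne_zero h11
      refine ⟨k, by omega, hk, ?_⟩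
      have h13 : t - 1 - b = (k : ZMod n) := by
        have : t - b = ((k + 1 : ℕ) : ZMod n) := by rw [← hcast t, hk]
        have h14 : t - 1 - b = (t - b) - 1 := by ring
        rw [h14, this]; push_cast; ring
      rw [h13, ZMod.val_natCast]
      exact Nat.mod_eq_of_lt (by omega)
    obtain ⟨k, hk1, hk2, hk3⟩ := step t ht1 ht2
    obtain ⟨l, hl1, hl2, hl3⟩ := step u hu1 hu2
    rw [hk2, hk3, hl2, hl3] at h
    have h15 : f (k + 1) - f k = f (l + 1) - f l := by
      have e1 : f (k + 1) - f k = (f (k + 1) - a) - (f k - a) := by ring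
      have e2 : f (l + 1) - f l = (f (l + 1) - a) - (f l - a) := by ring
      rw [e1, e2, h]
    have h16 := h3 k l hk1 hl1 h15
    have h17 : (t - b).val = (u - b).val := by rw [hk2, hl2, h16]
    have h7 := ZMod.val_injective n h17
    simpa using h7

end construction

end Pool.Agent.DNeo
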