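import Pool.Agent.DNeo.Product

/-!
Doubling: a labelled base with `2 q` rows whose partner graph is a single alternating path (recorded by
the position `p`) and whose bits are tied to the labels gives such a base with `4 q` rows.
-/

namespace Pool.Agent.DNeo

lemma PairOK.symm {q : ℕ} {A A' J J' e e' : ℤ} (h : PairOK q A A' J J' e e') :
    PairOK q A' A J' J e' e := by
  rcases h with ⟨h1, h2, h3⟩ | ⟨h1, h2, h3⟩
  · refine Or.inl ⟨h1.symm, h2.symm, ?_⟩
    rw [← neg_sub]
    exact h3.neg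
  · refine Or.inr ⟨by rw [h1, neg_neg], by rw [h2, h1]; ring, ?_⟩
    rw [← neg_sub]
    exact h3.neg

/-- The relation between the positions of two rows related by `G`. -/
def PosOK (r : ℕ) (a b : ℤ) : Prop := (r % 2 = 0 ∧ a = b + 1) ∨ (r % 2 = 1 ∧ b = a + 1)

instance (r : ℕ) (a b : ℤ) : Decidable (PosOK r a b) := by
  unfold PosOK; infer_instance

/-- A labelled base whose partner graph is a single path, with positions `p`. -/
structure PBase (q K : ℕ) (α J ε p : ℕ → ℤ) : Prop where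
  base : LBase q K α J ε
  e0 : ε (2 * q - 2) = -1
  p0 : p (2 * q - 1) = 0
  p1 : p (2 * q - 2) = q
  th : ∀ r, r < 2 * q → (4 : ℤ) ∣ 2 * J r + ε r + 1 + 2 * r
  pF : ∀ r, r < 2 * q → ∀ s, s < 2 * q → r < s → ¬ (s = r + 1 ∧ s + 1 = 2 * q) →
    (q : ℤ) ∣ α r - α s → p r = p s
  pG : ∀ r, r < 2 * q → ∀ s, s < 2 * q → r < s → (q : ℤ) ∣ (α r - r) - (α s - s) →
    PosOK r (p r) (p s)

section

variable {q K : ℕ} {α J ε p : ℕ → ℤ}

/-- The half of the label, rounded up. -/
def hl (ε : ℕ → ℤ) (r : ℕ) : ℤ := (ε r + 1) / 2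

/-- The shift of the row `r + 2 q h` of the doubled base. -/
def sh (q : ℕ) (p : ℕ → ℤ) (r h : ℕ) : ℤ :=
  if (r + h) % 2 = 0 then 2 * q + 1 - 2 * p r else 2 * p r

/-- The offset of the row `r + 2 q h` of the doubled base. -/
def dA (q : ℕ) (α ε p : ℕ → ℤ) (r h : ℕ) : ℤ := α r + q * (hl ε r + sh q p r h)

/-- The position of the row `r + 2 q h` of the doubled base. -/
def dp (q : ℕ) (p : ℕ → ℤ) (r h : ℕ) : ℤ :=
  if (r + h) % 2 = 0 then p r else q + p r

/-- The offsets of the doubled base. -/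
def dblα (q : ℕ) (α ε p : ℕ → ℤ) (R : ℕ) : ℤ :=
  if R = 4 * q then dA q α ε p 0 0 + ε 0 * (2 * q) else dA q α ε p (R % (2 * q)) (R / (2 * q))

/-- The positions of the doubled base. -/
def dblp (q : ℕ) (p : ℕ → ℤ) (R : ℕ) : ℤ := dp q p (R % (2 * q)) (R / (2 * q))

/-- Periodic extension. -/
def per (q : ℕ) (f : ℕ → ℤ) (R : ℕ) : ℤ := f (R % (2 * q))

lemma hl_spec (B : PBase q K α J ε p) {r : ℕ} (hr : r < 2 * q) : ε r = 2 * hl ε r - 1 := by
  obtain ⟨m, hm⟩ := B.base.odd r hr
  unfold hl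
  omega

lemma no_odd (hq : 0 < q) {x m : ℤ} (hx : x = q * m) (hm : m % 2 = 1) : ¬ (2 * (q : ℤ)) ∣ x := by
  intro h
  rw [hx, mul_comm (2 : ℤ)] at h
  have h2 : (2 : ℤ) ∣ m := (mul_dvd_mul_iff_left (by exact_mod_cast hq.ne')).mp h
  omega

lemma dF_eq (hq : 0 < q) {r h g : ℕ} (hh : h < 2) (hg : g < 2) (hne : h ≠ g) :
    ¬ (2 * (q : ℤ)) ∣ dA q α ε p r h - dA q α ε p r g := by
  have hc : (r + h) % 2 ≠ (r + g) % 2 := by omega
  unfold dA sh
  by_cases h1 : (r + h) % 2 = 0
  · have h2 : (r + g) % 2 ≠ 0 := by omega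
    rw [if_pos h1, if_neg h2]
    exact no_odd hq (m := 2 * q + 1 - 4 * p r) (by ring) (by omega)
  · have h2 : (r + g) % 2 = 0 := by omega
    rw [if_neg h1, if_pos h2]
    exact no_odd hq (m := 4 * p r - (2 * q + 1)) (by ring) (by omega)

lemma dG_eq (hq : 0 < q) {r h g : ℕ} (hh : h < 2) (hg : g < 2) (hne : h ≠ g) :
    ¬ (2 * (q : ℤ)) ∣ (dA q α ε p r h - (r + 2 * q * h)) - (dA q α ε p r g - (r + 2 * q * g)) := by
  have hc : (r + h) % 2 ≠ (r + g) % 2 := by omega
  unfold dA sh
  by_cases h1 : (r + h) % 2 = 0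
  · have h2 : (r + g) % 2 ≠ 0 := by omega
    rw [if_pos h1, if_neg h2]
    exact no_odd hq (m := 2 * q + 1 - 4 * p r - 2 * h + 2 * g) (by ring) (by omega)
  · have h2 : (r + g) % 2 = 0 := by omega
    rw [if_neg h1, if_pos h2]
    exact no_odd hq (m := 4 * p r - (2 * q + 1) - 2 * h + 2 * g) (by ring) (by omega)

lemma dvd_base {x y : ℤ} (h : (2 * (q : ℤ)) ∣ (x + q * y)) : (q : ℤ) ∣ x := by
  have h1 : (q : ℤ) ∣ x + q * y := (dvd_mul_left _ _).trans h
  exact (dvd_add_left (dvd_mul_right _ _)).mp h1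

lemma dF_lt (hq : 0 < q) (B : PBase q K α J ε p) {r s h g : ℕ} (hs : s < 2 * q)
    (hrs : r < s) (hh : h < 2) (hg : g < 2)
    (hsp : ¬ (s = r + 1 ∧ s + 1 = 2 * q ∧ h = 1 ∧ g = 1))
    (hd : (2 * (q : ℤ)) ∣ dA q α ε p r h - dA q α ε p s g) :
    PairOK (2 * q) (dA q α ε p r h) (dA q α ε p s g) (J r) (J s) (ε r) (ε s) ∧
      dp q p r h = dp q p s g := by
  have hr : r < 2 * q := by omega
  have hE1 := hl_spec B hr
  have hE2 := hl_spec B hs
  have hq0 : (q : ℤ) ∣ α r - α s := by
    refine dvd_base (y := (hl ε r + sh q p r h) - (hl ε s + sh q p s g)) ?_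
    have : α r - α s + q * ((hl ε r + sh q p r h) - (hl ε s + sh q p s g)) =
      dA q α ε p r h - dA q α ε p s g := by unfold dA; ring
    rw [this]; exact hd
  by_cases hspec : s = r + 1 ∧ s + 1 = 2 * q
  · -- the special pair
    obtain ⟨hs1, hs2⟩ := hspec
    have hr2 : r = 2 * q - 2 := by omega
    have hs3 : s = 2 * q - 1 := by omega
    have e0 : ε r = -1 := by rw [hr2]; exact B.e0
    obtain ⟨S1, S2, S3⟩ := B.base.S
    rw [← hr2, ← hs3] at S1 S2 S3
    have e1 : ε s = 1 := by rw [S1, e0]; norm_num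
    have p1 : p r = q := by rw [hr2]; exact B.p1
    have p0 : p s = 0 := by rw [hs3]; exact B.p0
    have E0 : hl ε r = 0 := by omega
    have E1 : hl ε s = 1 := by omega
    rw [e0] at S2
    have hα : α s = α r + 2 * q := by rw [S2]; ring
    have hr0 : r % 2 = 0 := by omega
    have hs0 : s % 2 = 1 := by omega
    interval_cases h <;> interval_cases g
    · refine ⟨Or.inr ⟨by rw [e0, e1]; norm_num, ?_, S3⟩, ?_⟩
      · unfold dA sh
        rw [if_neg (show ¬ (s + 0) % 2 = 0 by omega), if_pos (show (r + 0) % 2 = 0 by omega),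
          E0, E1, p1, p0, hα, e0]
        push_cast; ring
      · unfold dp
        rw [if_pos (by omega), if_neg (by omega), p1, p0]; ring
    · exfalso
      refine no_odd hq (m := 1 - 2 * q - 4) ?_ (by omega) hd
      unfold dA sh
      rw [if_pos (by omega), if_pos (by omega), E0, E1, p1, p0, hα]; ring
    · exfalso
      refine no_odd hq (m := 2 * q - 3) ?_ (by omega) hd
      unfold dA sh
      rw [if_neg (by omega), if_neg (by omega), E0, E1, p1, p0, hα]; ring
    · exact absurd ⟨hs1, hs2, rfl, rfl⟩ hsp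
  · have hp := B.pF r hr s hs hrs hspec hq0
    have hP := B.base.F r hr s hs hrs hspec hq0
    by_cases hc : (r + h) % 2 = (s + g) % 2
    · have hsh : sh q p r h = sh q p s g := by unfold sh; rw [hc, hp]
      have hdp : dp q p r h = dp q p s g := by unfold dp; rw [hc, hp]
      refine ⟨?_, hdp⟩
      rcases hP with ⟨h1, h2, h3⟩ | ⟨h1, h2, h3⟩
      · refine Or.inl ⟨h1, ?_, h3⟩
        have : hl ε r = hl ε s := by omega
        unfold dA
        rw [this, h2, hsh]
      · refine Or.inr ⟨h1, ?_, h3⟩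
        have : hl ε s = hl ε r - ε r := by omega
        unfold dA
        rw [this, h2, hsh]
        push_cast; ring
    · exfalso
      have hshd : ∃ m : ℤ, sh q p r h - sh q p s g = m ∧ m % 2 = 1 := by
        refine ⟨_, rfl, ?_⟩
        unfold sh
        by_cases h1 : (r + h) % 2 = 0
        · rw [if_pos h1, if_neg (by omega)]; omega
        · rw [if_neg h1, if_pos (by omega)]; omega
      obtain ⟨m, hm, hm2⟩ := hshd
      rcases hP with ⟨h1, h2, h3⟩ | ⟨h1, h2, h3⟩
      · refine no_odd hq (m := m) ?_ hm2 hd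
        have : hl ε r = hl ε s := by omega
        unfold dA
        rw [this, h2, ← hm]; ring
      · refine no_odd hq (m := m + 2 * ε r) ?_ (by omega) hd
        have : hl ε s = hl ε r - ε r := by omega
        unfold dA
        rw [this, h2, ← hm]; ring

/-- Rows related by `G` have opposite parity. -/
lemma G_parity (B : PBase q K α J ε p) {r s : ℕ} (hr : r < 2 * q) (hs : s < 2 * q) (hrs : r < s)
    (hd : (q : ℤ) ∣ (α r - r) - (α s - s)) : r % 2 ≠ s % 2 := by
  have t1 := B.th r hr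
  have t2 := B.th s hs
  have o1 := B.base.odd r hr
  rcases B.base.G r hr s hs hrs hd with ⟨h1, h2, h3⟩ | ⟨h1, h2, h3⟩
  · obtain ⟨m, hm⟩ := h3
    omega
  · obtain ⟨m, hm⟩ := h3
    obtain ⟨n, hn⟩ := o1
    omega

lemma dG_lt (hq : 0 < q) (B : PBase q K α J ε p) {r s h g : ℕ} (hs : s < 2 * q)
    (hrs : r < s) (hh : h < 2) (hg : g < 2)
    (hd : (2 * (q : ℤ)) ∣ (dA q α ε p r h - (r + 2 * q * h)) - (dA q α ε p s g - (s + 2 * q * g))) :
    PairOK (2 * q) (dA q α ε p r h - (r + 2 * q * h)) (dA q α ε p s g - (s + 2 * q * g))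
      (J r) (J s) (ε r - 2) (ε s - 2) ∧
      ((r % 2 = 0 ∧ s % 2 = 1 ∧ dp q p r h = dp q p s g + 1) ∨
       (r % 2 = 1 ∧ s % 2 = 0 ∧ dp q p s g = dp q p r h + 1)) := by
  have hr : r < 2 * q := by omega
  have hE1 := hl_spec B hr
  have hE2 := hl_spec B hs
  have hq0 : (q : ℤ) ∣ (α r - r) - (α s - s) := by
    refine dvd_base (y := (hl ε r + sh q p r h - 2 * h) - (hl ε s + sh q p s g - 2 * g)) ?_
    have : (α r - r) - (α s - s) +
        q * ((hl ε r + sh q p r h - 2 * h) - (hl ε s + sh q p s g - 2 * g)) =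
      (dA q α ε p r h - (r + 2 * q * h)) - (dA q α ε p s g - (s + 2 * q * g)) := by unfold dA; ring
    rw [this]; exact hd
  have hpar := G_parity B hr hs hrs hq0
  have hP := B.base.G r hr s hs hrs hq0
  have hp : (r % 2 = 0 ∧ s % 2 = 1 ∧ p r = p s + 1) ∨ (r % 2 = 1 ∧ s % 2 = 0 ∧ p s = p r + 1) := by
    rcases B.pG r hr s hs hrs hq0 with ⟨h1, h2⟩ | ⟨h1, h2⟩
    · exact Or.inl ⟨h1, by omega, h2⟩
    · exact Or.inr ⟨h1, by omega, h2⟩
  by_cases hc : (r + h) % 2 = (s + g) % 2
  · have hsh : sh q p r h - 2 * h = sh q p s g - 2 * g := by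
      unfold sh
      rw [hc]
      by_cases h1 : (s + g) % 2 = 0
      · rw [if_pos h1, if_pos h1]
        rcases hp with ⟨a1, a2, a3⟩ | ⟨a1, a2, a3⟩
        · have : h = 0 := by omega
          have : g = 1 := by omega
          subst h g
          rw [a3]; push_cast; ring
        · have : h = 1 := by omega
          have : g = 0 := by omega
          subst h g
          rw [a3]; push_cast; ring
      · rw [if_neg h1, if_neg h1]
        rcases hp with ⟨a1, a2, a3⟩ | ⟨a1, a2, a3⟩
        · have : h = 1 := by omega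
          have : g = 0 := by omega
          subst h g
          rw [a3]; push_cast; ring
        · have : h = 0 := by omega
          have : g = 1 := by omega
          subst h g
          rw [a3]; push_cast; ring
    have hdp : dp q p r h - dp q p s g = p r - p s := by
      unfold dp
      rw [hc]
      by_cases h1 : (s + g) % 2 = 0
      · rw [if_pos h1, if_pos h1]
      · rw [if_neg h1, if_neg h1]; ring
    refine ⟨?_, ?_⟩
    · rcases hP with ⟨h1, h2, h3⟩ | ⟨h1, h2, h3⟩
      · refine Or.inl ⟨h1, ?_, h3⟩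
        have e : hl ε r = hl ε s := by omega
        have h4 : dA q α ε p r h - (r + 2 * q * h) =
            (α r - r) + q * (hl ε r + (sh q p r h - 2 * h)) := by unfold dA; ring
        have h5 : dA q α ε p s g - (s + 2 * q * g) =
            (α s - s) + q * (hl ε s + (sh q p s g - 2 * g)) := by unfold dA; ring
        rw [h4, h5, h2, e, hsh]
      · refine Or.inr ⟨h1, ?_, h3⟩
        have e : hl ε s = hl ε r - (ε r - 2) := by omega
        have h4 : dA q α ε p r h - (r + 2 * q * h) =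
            (α r - r) + q * (hl ε r + (sh q p r h - 2 * h)) := by unfold dA; ring
        have h5 : dA q α ε p s g - (s + 2 * q * g) =
            (α s - s) + q * (hl ε s + (sh q p s g - 2 * g)) := by unfold dA; ring
        rw [h4, h5, h2, e, hsh]
        push_cast; ring
    · rcases hp with ⟨a1, a2, a3⟩ | ⟨a1, a2, a3⟩
      · exact Or.inl ⟨a1, a2, by omega⟩
      · exact Or.inr ⟨a1, a2, by omega⟩
  · exfalso
    have hshd : ∃ m : ℤ, (sh q p r h - 2 * h) - (sh q p s g - 2 * g) = m ∧ m % 2 = 1 := by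
      refine ⟨_, rfl, ?_⟩
      unfold sh
      by_cases h1 : (r + h) % 2 = 0
      · rw [if_pos h1, if_neg (by omega)]; omega
      · rw [if_neg h1, if_pos (by omega)]; omega
    obtain ⟨m, hm, hm2⟩ := hshd
    have h4 : dA q α ε p r h - (r + 2 * q * h) =
        (α r - r) + q * (hl ε r + (sh q p r h - 2 * h)) := by unfold dA; ring
    have h5 : dA q α ε p s g - (s + 2 * q * g) =
        (α s - s) + q * (hl ε s + (sh q p s g - 2 * g)) := by unfold dA; ring
    rcases hP with ⟨h1, h2, h3⟩ | ⟨h1, h2, h3⟩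
    · refine no_odd hq (m := m) ?_ hm2 hd
      have e : hl ε r = hl ε s := by omega
      rw [h4, h5, e, h2, ← hm]; ring
    · refine no_odd hq (m := m + 2 * (ε r - 2)) ?_ (by omega) hd
      have e : hl ε s = hl ε r - (ε r - 2) := by omega
      rw [h4, h5, e, h2, ← hm]; ring

/-- The differences of the doubled base. -/
lemma dD (B : PBase q K α J ε p) {r : ℕ} (hr : r < 2 * q) :
    ∃ c c' : ℤ, (c' - c) % 2 = 1 ∧
      (dblα q α ε p (r + 1) - dblα q α ε p r + (per q J (r + 1) - per q J r) * (2 * q) =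
        (α (r + 1) - α r + (J (r + 1) - J r) * q) + 2 * q * c) ∧
      (dblα q α ε p (r + 2 * q + 1) - dblα q α ε p (r + 2 * q) +
          (per q J (r + 2 * q + 1) - per q J (r + 2 * q)) * (2 * q) =
        (α (r + 1) - α r + (J (r + 1) - J r) * q) + 2 * q * c') := by
  have hq : 0 < q := by omega
  have hE1 := hl_spec B hr
  have t1 := B.th r hr
  have m1 : r % (2 * q) = r := Nat.mod_eq_of_lt hr
  have m2 : (r + 2 * q) % (2 * q) = r := by rw [Nat.add_mod_right, m1]
  have d1 : r / (2 * q) = 0 := Nat.div_eq_of_lt hr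
  have d2 : (r + 2 * q) / (2 * q) = 1 := by
    rw [Nat.add_div_right _ (by omega), d1]
  have a1 : dblα q α ε p r = dA q α ε p r 0 := by
    unfold dblα; rw [if_neg (by omega), m1, d1]
  have a2 : dblα q α ε p (r + 2 * q) = dA q α ε p r 1 := by
    unfold dblα; rw [if_neg (by omega), m2, d2]
  have j1 : per q J r = J r := by unfold per; rw [m1]
  have j2 : per q J (r + 2 * q) = J r := by unfold per; rw [m2]
  rcases Nat.lt_or_ge (r + 1) (2 * q) with hr1 | hr1
  · have hE2 := hl_spec B hr1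
    have t2 := B.th (r + 1) hr1
    have m3 : (r + 1) % (2 * q) = r + 1 := Nat.mod_eq_of_lt hr1
    have m4 : (r + 2 * q + 1) % (2 * q) = r + 1 := by
      rw [show r + 2 * q + 1 = (r + 1) + 2 * q by ring, Nat.add_mod_right, m3]
    have d3 : (r + 1) / (2 * q) = 0 := Nat.div_eq_of_lt hr1
    have d4 : (r + 2 * q + 1) / (2 * q) = 1 := by
      rw [show r + 2 * q + 1 = (r + 1) + 2 * q by ring, Nat.add_div_right _ (by omega), d3]
    have a3 : dblα q α ε p (r + 1) = dA q α ε p (r + 1) 0 := by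
      unfold dblα; rw [if_neg (by omega), m3, d3]
    have a4 : dblα q α ε p (r + 2 * q + 1) = dA q α ε p (r + 1) 1 := by
      unfold dblα; rw [if_neg (by omega), m4, d4]
    have j3 : per q J (r + 1) = J (r + 1) := by unfold per; rw [m3]
    have j4 : per q J (r + 2 * q + 1) = J (r + 1) := by unfold per; rw [m4]
    rw [a1, a2, a3, a4, j1, j2, j3, j4]
    push_cast at t2
    obtain ⟨b, hb⟩ : ∃ b : ℤ, (J (r + 1) - J r) + (hl ε (r + 1) - hl ε r) = 2 * b + 1 := by
      refine ⟨((J (r + 1) - J r) + (hl ε (r + 1) - hl ε r) - 1) / 2, ?_⟩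
      omega
    by_cases h0 : r % 2 = 0
    · refine ⟨b + (p (r + 1) + p r - q), b + 1 - (p (r + 1) + p r - q), by omega, ?_, ?_⟩
      · unfold dA sh
        rw [if_pos (show (r + 0) % 2 = 0 by omega), if_neg (show ¬ (r + 1 + 0) % 2 = 0 by omega)]
        linear_combination (q : ℤ) * hb
      · unfold dA sh
        rw [if_neg (show ¬ (r + 1) % 2 = 0 by omega), if_pos (show (r + 1 + 1) % 2 = 0 by omega)]
        linear_combination (q : ℤ) * hb
    · refine ⟨b + 1 - (p (r + 1) + p r - q), b + (p (r + 1) + p r - q), by omega, ?_, ?_⟩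
      · unfold dA sh
        rw [if_neg (show ¬ (r + 0) % 2 = 0 by omega), if_pos (show (r + 1 + 0) % 2 = 0 by omega)]
        linear_combination (q : ℤ) * hb
      · unfold dA sh
        rw [if_pos (show (r + 1) % 2 = 0 by omega), if_neg (show ¬ (r + 1 + 1) % 2 = 0 by omega)]
        linear_combination (q : ℤ) * hb
  · have hr2 : r + 1 = 2 * q := by omega
    have hE0 := hl_spec B (show 0 < 2 * q by omega)
    have t0 := B.th 0 (by omega)
    have x1 := B.base.ext_α
    have x2 := B.base.ext_J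
    have p0 : p r = 0 := by
      have := B.p0
      rwa [show 2 * q - 1 = r by omega] at this
    have m3 : (r + 1) % (2 * q) = 0 := by rw [hr2, Nat.mod_self]
    have m4 : (r + 2 * q + 1) % (2 * q) = 0 := by
      rw [show r + 2 * q + 1 = 2 * q + 2 * q by omega, Nat.add_mod_right, Nat.mod_self]
    have d3 : (r + 1) / (2 * q) = 1 := by rw [hr2, Nat.div_self (by omega)]
    have a3 : dblα q α ε p (r + 1) = dA q α ε p 0 1 := by
      unfold dblα; rw [if_neg (by omega), m3, d3]
    have a4 : dblα q α ε p (r + 2 * q + 1) = dA q α ε p 0 0 + ε 0 * (2 * q) := by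
      unfold dblα; rw [if_pos (by omega)]
    have j3 : per q J (r + 1) = J 0 := by unfold per; rw [m3]
    have j4 : per q J (r + 2 * q + 1) = J 0 := by unfold per; rw [m4]
    rw [a1, a2, a3, a4, j1, j2, j3, j4, hr2, x1, x2]
    push_cast at t0
    obtain ⟨b, hb⟩ : ∃ b : ℤ, (J 0 - J r) + (hl ε 0 - hl ε r) - ε 0 = 2 * b := by
      refine ⟨((J 0 - J r) + (hl ε 0 - hl ε r) - ε 0) / 2, ?_⟩
      omega
    refine ⟨b + p 0, b + ε 0 - p 0, by omega, ?_, ?_⟩
    · unfold dA sh
      rw [if_neg (show ¬ (r + 0) % 2 = 0 by omega), if_neg (show ¬ (0 + 1) % 2 = 0 by omega), p0]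
      linear_combination (q : ℤ) * hb
    · unfold dA sh
      rw [if_pos (show (r + 1) % 2 = 0 by omega), if_pos (show (0 + 0) % 2 = 0 by omega), p0]
      linear_combination (q : ℤ) * hb

/-- Doubling a base. -/
theorem PBase.double (hq : 0 < q) (B : PBase q K α J ε p) :
    PBase (2 * q) K (dblα q α ε p) (per q J) (per q ε) (dblp q p) := by
  have key : ∀ R, R < 2 * (2 * q) → R % (2 * q) < 2 * q ∧ R / (2 * q) < 2 ∧
      R = R % (2 * q) + 2 * q * (R / (2 * q)) ∧
      dblα q α ε p R = dA q α ε p (R % (2 * q)) (R / (2 * q)) := by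
    intro R hR
    refine ⟨Nat.mod_lt _ (by omega), ?_, (Nat.mod_add_div _ _).symm, ?_⟩
    · exact (Nat.div_lt_iff_lt_mul (by omega)).mpr (by omega)
    · unfold dblα; rw [if_neg (by omega)]
  have key2 : ∀ R, R < 2 * (2 * q) → (R : ℤ) = ((R % (2 * q) : ℕ) : ℤ) + 2 * q * ((R / (2 * q) : ℕ) : ℤ) := by
    intro R hR
    have := (key R hR).2.2.1
    exact_mod_cast this
  -- order of the residues
  have F0 : ∀ R, R < 2 * (2 * q) → ∀ S, S < 2 * (2 * q) → R < S →
      ¬ (S = R + 1 ∧ S + 1 = 2 * (2 * q)) → (2 * (q : ℤ)) ∣ dblα q α ε p R - dblα q α ε p S →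
      PairOK (2 * q) (dblα q α ε p R) (dblα q α ε p S) (per q J R) (per q J S) (per q ε R)
        (per q ε S) ∧ dblp q p R = dblp q p S := by
    intro R hR S hS hRS hsp hd
    obtain ⟨r1, r2, r3, r4⟩ := key R hR
    obtain ⟨s1, s2, s3, s4⟩ := key S hS
    rw [r4, s4] at hd ⊢
    unfold per dblp
    generalize R % (2 * q) = r at *
    generalize R / (2 * q) = h at *
    generalize S % (2 * q) = s at *
    generalize S / (2 * q) = g at *
    rcases lt_trichotomy r s with hrs | hrs | hrs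
    · refine dF_lt hq B s1 hrs r2 s2 ?_ hd
      rintro ⟨c1, c2, c3, c4⟩
      apply hsp
      subst c3 c4
      omega
    · subst hrs
      have hne : h ≠ g := by
        rintro rfl
        omega
      exact absurd hd (dF_eq hq r2 s2 hne)
    · have hd' : (2 * (q : ℤ)) ∣ dA q α ε p s g - dA q α ε p r h := by
        rw [← neg_sub]; exact hd.neg_right
      have := dF_lt hq B r1 hrs s2 r2 ?_ hd'
      · exact ⟨this.1.symm, this.2.symm⟩
      · rintro ⟨c1, c2, c3, c4⟩
        subst c3 c4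
        omega
  have G0 : ∀ R, R < 2 * (2 * q) → ∀ S, S < 2 * (2 * q) → R < S →
      (2 * (q : ℤ)) ∣ (dblα q α ε p R - R) - (dblα q α ε p S - S) →
      PairOK (2 * q) (dblα q α ε p R - R) (dblα q α ε p S - S) (per q J R) (per q J S)
        (per q ε R - 2) (per q ε S - 2) ∧
      PosOK R (dblp q p R) (dblp q p S) := by
    intro R hR S hS hRS hd
    obtain ⟨r1, r2, r3, r4⟩ := key R hR
    obtain ⟨s1, s2, s3, s4⟩ := key S hS
    have r5 := key2 R hR
    have s5 := key2 S hS
    have e1 : R % 2 = R % (2 * q) % 2 := by rw [Nat.mod_mul_right_mod]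
    unfold PosOK
    rw [e1]
    rw [r4, s4, r5, s5] at hd
    rw [r4, s4, r5, s5]
    unfold per dblp
    generalize R % (2 * q) = r at *
    generalize R / (2 * q) = h at *
    generalize S % (2 * q) = s at *
    generalize S / (2 * q) = g at *
    rcases lt_trichotomy r s with hrs | hrs | hrs
    · obtain ⟨h1, h2⟩ := dG_lt hq B s1 hrs r2 s2 hd
      refine ⟨h1, ?_⟩
      rcases h2 with ⟨a, b, c⟩ | ⟨a, b, c⟩
      · exact Or.inl ⟨a, c⟩
      · exact Or.inr ⟨a, c⟩
    · subst hrs
      have hne : h ≠ g := by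
        rintro rfl
        omega
      exact absurd hd (dG_eq hq r2 s2 hne)
    · have hd' : (2 * (q : ℤ)) ∣ (dA q α ε p s g - (s + 2 * q * g)) -
          (dA q α ε p r h - (r + 2 * q * h)) := by
        rw [← neg_sub]; exact hd.neg_right
      obtain ⟨h1, h2⟩ := dG_lt hq B r1 hrs s2 r2 hd'
      refine ⟨h1.symm, ?_⟩
      rcases h2 with ⟨a, b, c⟩ | ⟨a, b, c⟩
      · exact Or.inr ⟨b, c⟩
      · exact Or.inl ⟨b, c⟩
  have perlt : ∀ (f : ℕ → ℤ) (R : ℕ), R < 2 * q → per q f R = f R := by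
    intro f R hR
    unfold per
    rw [Nat.mod_eq_of_lt hR]
  have u1 : (2 * (2 * q) - 2) % (2 * q) = 2 * q - 2 := by
    rw [show 2 * (2 * q) - 2 = (2 * q - 2) + 2 * q by omega, Nat.add_mod_right,
      Nat.mod_eq_of_lt (by omega)]
  have u2 : (2 * (2 * q) - 1) % (2 * q) = 2 * q - 1 := by
    rw [show 2 * (2 * q) - 1 = (2 * q - 1) + 2 * q by omega, Nat.add_mod_right,
      Nat.mod_eq_of_lt (by omega)]
  have v1 : (2 * (2 * q) - 2) / (2 * q) = 1 := by
    rw [show 2 * (2 * q) - 2 = (2 * q - 2) + 2 * q by omega, Nat.add_div_right _ (by omega),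
      Nat.div_eq_of_lt (by omega)]
  have v2 : (2 * (2 * q) - 1) / (2 * q) = 1 := by
    rw [show 2 * (2 * q) - 1 = (2 * q - 1) + 2 * q by omega, Nat.add_div_right _ (by omega),
      Nat.div_eq_of_lt (by omega)]
  refine ⟨⟨?_, ?_, ?_, ?_, ?_, ?_, ?_, ?_, ?_, ?_, ?_⟩, ?_, ?_, ?_, ?_, ?_, ?_⟩
  · -- ext_α
    have a : dblα q α ε p (2 * (2 * q)) = dA q α ε p 0 0 + ε 0 * (2 * q) := by
      unfold dblα; rw [if_pos (by omega)]
    have b : dblα q α ε p 0 = dA q α ε p 0 0 := by
      unfold dblα; rw [if_neg (by omega), Nat.zero_mod, Nat.zero_div]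
    rw [a, b, perlt ε 0 (by omega)]
    push_cast; ring
  · unfold per
    rw [Nat.mul_mod_left, Nat.zero_mod]
  · unfold per
    rw [Nat.mul_mod_left, Nat.zero_mod]
  · intro R hR
    exact B.base.odd _ (Nat.mod_lt _ (by omega))
  · intro R hR
    exact B.base.dvd_F _ (Nat.mod_lt _ (by omega))
  · intro R hR
    exact B.base.dvd_G _ (Nat.mod_lt _ (by omega))
  · intro R hR
    have h1 := B.base.dvd_D (R % (2 * q)) (Nat.mod_lt _ (by omega))
    have h2 : per q ε (R + 1) = ε (R % (2 * q) + 1) := by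
      unfold per
      rw [Nat.add_mod]
      rcases Nat.lt_or_ge (R % (2 * q) + 1) (2 * q) with h | h
      · have hq1 : 1 < 2 * q := by omega
        rw [Nat.mod_eq_of_lt hq1, Nat.mod_eq_of_lt h]
      · have h3 : R % (2 * q) + 1 = 2 * q := by
          have := Nat.mod_lt R (show 0 < 2 * q by omega)
          omega
        have hq1 : 1 < 2 * q := by omega
        rw [Nat.mod_eq_of_lt hq1, h3, Nat.mod_self, B.base.ext_ε]
    rw [h2]
    exact h1
  · intro R hR S hS hRS hsp hd
    refine (F0 R hR S hS hRS hsp ?_).1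
    exact_mod_cast hd
  · intro R hR S hS hRS hd
    refine (G0 R hR S hS hRS ?_).1
    exact_mod_cast hd
  · -- S
    obtain ⟨S1, S2, S3⟩ := B.base.S
    have k1 := (key (2 * (2 * q) - 2) (by omega)).2.2.2
    have k2 := (key (2 * (2 * q) - 1) (by omega)).2.2.2
    rw [u1, v1] at k1
    rw [u2, v2] at k2
    rw [k1, k2]
    unfold per
    rw [u1, u2]
    refine ⟨S1, ?_, S3⟩
    have E1 := hl_spec B (show 2 * q - 2 < 2 * q by omega)
    have E2 := hl_spec B (show 2 * q - 1 < 2 * q by omega)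
    have e0 := B.e0
    have p0 := B.p0
    have p1 := B.p1
    have E0 : hl ε (2 * q - 2) = 0 := by omega
    have E1 : hl ε (2 * q - 1) = 1 := by omega
    unfold dA sh
    rw [if_pos (show (2 * q - 1 + 1) % 2 = 0 by omega),
      if_neg (show ¬ (2 * q - 2 + 1) % 2 = 0 by omega), E0, E1, p0, p1, S2, e0]
    push_cast; ring
  · -- D
    intro R hR S hS hRS hd
    have g : ∀ R, R < 2 * (2 * q) → ∃ c : ℤ,
        dblα q α ε p (R + 1) - dblα q α ε p R + (per q J (R + 1) - per q J R) * (2 * q) =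
        (α (R % (2 * q) + 1) - α (R % (2 * q)) + (J (R % (2 * q) + 1) - J (R % (2 * q))) * q) +
          2 * q * c := by
      intro R hR
      rcases Nat.lt_or_ge R (2 * q) with h | h
      · obtain ⟨c, c', -, h1, -⟩ := dD B h
        rw [Nat.mod_eq_of_lt h]
        exact ⟨c, h1⟩
      · obtain ⟨r, rfl⟩ : ∃ r, R = r + 2 * q := ⟨R - 2 * q, by omega⟩
        have hr : r < 2 * q := by omega
        obtain ⟨c, c', -, -, h1⟩ := dD B hr
        rw [Nat.add_mod_right, Nat.mod_eq_of_lt hr]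
        exact ⟨c', h1⟩
    have hd' : (2 * (2 * (q : ℤ))) ∣
        (dblα q α ε p (R + 1) - dblα q α ε p R + (per q J (R + 1) - per q J R) * (2 * q)) -
        (dblα q α ε p (S + 1) - dblα q α ε p S + (per q J (S + 1) - per q J S) * (2 * q)) := by
      have := hd
      push_cast at this
      exact this
    obtain ⟨c1, h1⟩ := g R hR
    obtain ⟨c2, h2⟩ := g S hS
    have hdb : (2 * (q : ℤ)) ∣
        (α (R % (2 * q) + 1) - α (R % (2 * q)) + (J (R % (2 * q) + 1) - J (R % (2 * q))) * q) -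
        (α (S % (2 * q) + 1) - α (S % (2 * q)) + (J (S % (2 * q) + 1) - J (S % (2 * q))) * q) := by
      have h3 := (dvd_mul_left (2 * (q : ℤ)) 2).trans hd'
      rw [h1, h2] at h3
      have h4 := dvd_sub h3 (dvd_mul_right (2 * (q : ℤ)) (c1 - c2))
      refine (dvd_iff_dvd_of_dvd_sub (a := 2 * (q : ℤ)) ?_).mp h3
      refine ⟨c1 - c2, ?_⟩
      ring
    rcases lt_trichotomy (R % (2 * q)) (S % (2 * q)) with h | h | h
    · exact B.base.D _ (Nat.mod_lt _ (by omega)) _ (Nat.mod_lt _ (by omega)) h hdb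
    · -- equal residues
      have hRq : R < 2 * q := by
        by_contra hc
        obtain ⟨r, rfl⟩ : ∃ r, R = r + 2 * q := ⟨R - 2 * q, by omega⟩
        obtain ⟨s, rfl⟩ : ∃ s, S = s + 2 * q := ⟨S - 2 * q, by omega⟩
        rw [Nat.add_mod_right, Nat.add_mod_right, Nat.mod_eq_of_lt (by omega),
          Nat.mod_eq_of_lt (by omega)] at h
        omega
      have hSq : 2 * q ≤ S := by
        by_contra hc
        rw [Nat.mod_eq_of_lt hRq, Nat.mod_eq_of_lt (by omega)] at h
        omega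
      obtain ⟨s, rfl⟩ : ∃ s, S = s + 2 * q := ⟨S - 2 * q, by omega⟩
      rw [Nat.add_mod_right, Nat.mod_eq_of_lt hRq, Nat.mod_eq_of_lt (by omega)] at h
      subst h
      obtain ⟨c, c', hc, k1, k2⟩ := dD B hRq
      rw [k1, k2] at hd'
      refine no_odd (q := 2 * q) (by omega) (m := c - c') ?_ (by omega) (by exact_mod_cast hd')
      push_cast; ring
    · refine B.base.D _ (Nat.mod_lt _ (by omega)) _ (Nat.mod_lt _ (by omega)) h ?_
      rw [← neg_sub]; exact hdb.neg_right
  · unfold per; rw [u1]; exact B.e0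
  · unfold dblp dp
    rw [u2, v2, if_pos (by omega)]
    exact B.p0
  · unfold dblp dp
    rw [u1, v1, if_neg (by omega), B.p1]
    push_cast; ring
  · intro R hR
    have h1 := B.th (R % (2 * q)) (Nat.mod_lt _ (by omega))
    have h2 := key2 R hR
    unfold per
    have h3 : 2 * J (R % (2 * q)) + ε (R % (2 * q)) + 1 + 2 * (R : ℤ) =
        (2 * J (R % (2 * q)) + ε (R % (2 * q)) + 1 + 2 * ((R % (2 * q) : ℕ) : ℤ)) +
          4 * (q * ((R / (2 * q) : ℕ) : ℤ)) := by
      linear_combination 2 * h2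
    rw [h3]
    exact dvd_add h1 (dvd_mul_right _ _)
  · intro R hR S hS hRS hsp hd
    refine (F0 R hR S hS hRS hsp ?_).2
    exact_mod_cast hd
  · intro R hR S hS hRS hd
    refine (G0 R hR S hS hRS ?_).2
    exact_mod_cast hd

end

/-- Iterated doubling. -/
theorem PBase.pow {K : ℕ} (m : ℕ) : ∀ {q : ℕ} {α J ε p : ℕ → ℤ}, 0 < q → PBase q K α J ε p →
    ∃ α' J' ε' p' : ℕ → ℤ, PBase (2 ^ m * q) K α' J' ε' p' := by
  induction m with
  | zero =>
    intro q α J ε p hq B
    exact ⟨α, J, ε, p, by simpa using B⟩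
  | succ m ih =>
    intro q α J ε p hq B
    obtain ⟨α', J', ε', p', h⟩ := ih (by omega) (B.double hq)
    refine ⟨α', J', ε', p', ?_⟩
    rw [show 2 ^ (m + 1) * q = 2 ^ m * (2 * q) by rw [pow_succ]; ring]
    exact h

/-- D-neofields from a base and its doublings. -/
theorem existsDNeofield_of_pbase {q K k : ℕ} (hq : 0 < q) {α J ε p : ℕ → ℤ}
    (B : PBase q K α J ε p) (hk : Odd k) (hK : Nat.Coprime k K) (m : ℕ) :
    ExistsDNeofield (2 * (2 ^ m * q) * k + 1) := by
  obtain ⟨α', J', ε', p', h⟩ := B.pow m hq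
  exact existsDNeofield_of_base (by positivity) h.base hk hK

end Pool.Agent.DNeo
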