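import Pool.Agent.DNeo.Sym

namespace Pool.Agent.DNeo

/-- family for `n = 16 q + 6` -/
def cA (n : ℤ) (i : ℤ) : ℤ :=
  if i % 8 = 0 then 0
  else if i % 8 = 1 then n - 1 - 2 * i
  else if i % 8 = 2 then n - 2 + 2 * i
  else if i % 8 = 3 then n - 3 - 2 * i
  else if i % 8 = 4 then 0
  else if i % 8 = 5 then n - 3 + 2 * i
  else if i % 8 = 6 then n - 2 - 2 * i
  else n - 1 + 2 * i

/-- successive differences -/
def cAE (n : ℤ) (i : ℤ) : ℤ :=
  if i % 8 = 0 then n - 3 - 2 * i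
  else if i % 8 = 1 then 1 + 4 * i
  else if i % 8 = 2 then -3 - 4 * i
  else if i % 8 = 3 then -n + 3 + 2 * i
  else if i % 8 = 4 then n - 1 + 2 * i
  else if i % 8 = 5 then -1 - 4 * i
  else if i % 8 = 6 then 3 + 4 * i
  else -n + 1 - 2 * i


set_option maxHeartbeats 4000000 in
theorem cA_x (q : ℤ) (hq : 0 ≤ q) (i j : ℤ) (hi : -(8 * q + 2) ≤ i) (hi' : i ≤ (8 * q + 2))
    (hj : -(8 * q + 2) ≤ j) (hj' : j ≤ (8 * q + 2))
    (hd : (2 * (16 * q + 6)) ∣ (cA (16 * q + 6) i + i) - (cA (16 * q + 6) j + j)) : i = j := by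
  obtain ⟨k, hk⟩ := hd
  have bnd : ∀ i : ℤ, -(8 * q + 2) ≤ i → i ≤ (8 * q + 2) →
      -(8 * q + 3) ≤ cA (16 * q + 6) i + i ∧ cA (16 * q + 6) i + i ≤ 40 * q + 15 := by
    intro i h1 h2
    unfold cA
    split_ifs <;> constructor <;> omega
  have b1 := bnd i hi hi'
  have b2 := bnd j hj hj'
  have hk1 : -2 < k := by
    by_contra hcon
    have : k ≤ -2 := by omega
    nlinarith
  have hk2 : k < 2 := by
    by_contra hcon
    have : 2 ≤ k := by omega
    nlinarith
  unfold cA at hk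
  interval_cases k
  · split_ifs at hk <;> omega
  · split_ifs at hk <;> omega
  · split_ifs at hk <;> omega

set_option maxHeartbeats 4000000 in
theorem cA_e (q : ℤ) (hq : 0 ≤ q) (i j : ℤ) (hi : -(8 * q + 2) ≤ i) (hi' : i < (8 * q + 2))
    (hj : -(8 * q + 2) ≤ j) (hj' : j < (8 * q + 2))
    (hd : (2 * (16 * q + 6)) ∣ (cA (16 * q + 6) (i + 1) - cA (16 * q + 6) i) - (cA (16 * q + 6) (j + 1) - cA (16 * q + 6) j)) :
    i = j := by
  obtain ⟨k, hk⟩ := hd
  have val : ∀ i : ℤ, cA (16 * q + 6) (i + 1) - cA (16 * q + 6) i = cAE (16 * q + 6) i := by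
    intro i
    unfold cA cAE
    split_ifs <;> omega
  rw [val, val] at hk
  have bnd : ∀ i : ℤ, -(8 * q + 2) ≤ i → i ≤ (8 * q + 2) →
      -(32 * q + 16) ≤ cAE (16 * q + 6) i ∧ cAE (16 * q + 6) i ≤ 32 * q + 16 := by
    intro i h1 h2
    unfold cAE
    split_ifs <;> constructor <;> omega
  have b1 := bnd i hi (by omega)
  have b2 := bnd j hj (by omega)
  have hk1 : -3 < k := by
    by_contra hcon
    have : k ≤ -3 := by omega
    nlinarith
  have hk2 : k < 3 := by
    by_contra hcon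
    have : 3 ≤ k := by omega
    nlinarith
  unfold cAE at hk
  interval_cases k
  · split_ifs at hk <;> omega
  · split_ifs at hk <;> omega
  · split_ifs at hk <;> omega
  · split_ifs at hk <;> omega
  · split_ifs at hk <;> omega

/-- family for `n = 16 q + 14` -/
def cB (n : ℤ) (i : ℤ) : ℤ :=
  if i % 8 = 0 then 0
  else if i % 8 = 1 then n + 3 - 2 * i
  else if i % 8 = 2 then n + 2 + 2 * i
  else if i % 8 = 3 then n + 1 - 2 * i
  else if i % 8 = 4 then 0
  else if i % 8 = 5 then n + 1 + 2 * i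
  else if i % 8 = 6 then n + 2 - 2 * i
  else n + 3 + 2 * i

/-- successive differences -/
def cBE (n : ℤ) (i : ℤ) : ℤ :=
  if i % 8 = 0 then n + 1 - 2 * i
  else if i % 8 = 1 then 1 + 4 * i
  else if i % 8 = 2 then -3 - 4 * i
  else if i % 8 = 3 then -n - 1 + 2 * i
  else if i % 8 = 4 then n + 3 + 2 * i
  else if i % 8 = 5 then -1 - 4 * i
  else if i % 8 = 6 then 3 + 4 * i
  else -n - 3 - 2 * i


set_option maxHeartbeats 4000000 in
theorem cB_x (q : ℤ) (hq : 0 ≤ q) (i j : ℤ) (hi : -(8 * q + 6) ≤ i) (hi' : i ≤ (8 * q + 6))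
    (hj : -(8 * q + 6) ≤ j) (hj' : j ≤ (8 * q + 6))
    (hd : (2 * (16 * q + 14)) ∣ (cB (16 * q + 14) i + i) - (cB (16 * q + 14) j + j)) : i = j := by
  obtain ⟨k, hk⟩ := hd
  have bnd : ∀ i : ℤ, -(8 * q + 6) ≤ i → i ≤ (8 * q + 6) →
      -(8 * q + 7) ≤ cB (16 * q + 14) i + i ∧ cB (16 * q + 14) i + i ≤ 40 * q + 35 := by
    intro i h1 h2
    unfold cB
    split_ifs <;> constructor <;> omega
  have b1 := bnd i hi hi'
  have b2 := bnd j hj hj'
  have hk1 : -2 < k := by
    by_contra hcon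
    have : k ≤ -2 := by omega
    nlinarith
  have hk2 : k < 2 := by
    by_contra hcon
    have : 2 ≤ k := by omega
    nlinarith
  unfold cB at hk
  interval_cases k
  · split_ifs at hk <;> omega
  · split_ifs at hk <;> omega
  · split_ifs at hk <;> omega

set_option maxHeartbeats 4000000 in
theorem cB_e (q : ℤ) (hq : 0 ≤ q) (i j : ℤ) (hi : -(8 * q + 6) ≤ i) (hi' : i < (8 * q + 6))
    (hj : -(8 * q + 6) ≤ j) (hj' : j < (8 * q + 6))
    (hd : (2 * (16 * q + 14)) ∣ (cB (16 * q + 14) (i + 1) - cB (16 * q + 14) i) - (cB (16 * q + 14) (j + 1) - cB (16 * q + 14) j)) :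
    i = j := by
  obtain ⟨k, hk⟩ := hd
  have val : ∀ i : ℤ, cB (16 * q + 14) (i + 1) - cB (16 * q + 14) i = cBE (16 * q + 14) i := by
    intro i
    unfold cB cBE
    split_ifs <;> omega
  rw [val, val] at hk
  have bnd : ∀ i : ℤ, -(8 * q + 6) ≤ i → i ≤ (8 * q + 6) →
      -(32 * q + 32) ≤ cBE (16 * q + 14) i ∧ cBE (16 * q + 14) i ≤ 32 * q + 32 := by
    intro i h1 h2
    unfold cBE
    split_ifs <;> constructor <;> omega
  have b1 := bnd i hi (by omega)
  have b2 := bnd j hj (by omega)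
  have hk1 : -3 < k := by
    by_contra hcon
    have : k ≤ -3 := by omega
    nlinarith
  have hk2 : k < 3 := by
    by_contra hcon
    have : 3 ≤ k := by omega
    nlinarith
  unfold cBE at hk
  interval_cases k
  · split_ifs at hk <;> omega
  · split_ifs at hk <;> omega
  · split_ifs at hk <;> omega
  · split_ifs at hk <;> omega
  · split_ifs at hk <;> omega

end Pool.Agent.DNeo
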