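import Pool.Agent.DNeo.Basic

/-!
Product construction: a labelled base with `2 q` rows gives a D-neofield of order `2 q k + 1` for every
`k` coprime to the labels, the labels minus two and the half differences of consecutive labels.
-/

namespace Pool.Agent.DNeo

/-- The relation between two rows of a base whose values lie in the same coset. -/
def PairOK (q : ℕ) (A A' J J' e e' : ℤ) : Prop :=
  (e = e' ∧ A = A' ∧ Odd (J - J')) ∨ (e' = -e ∧ A' = A - e * q ∧ Even (J - J'))

instance (q : ℕ) (A A' J J' e e' : ℤ) : Decidable (PairOK q A A' J J' e e') := by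
  unfold PairOK; infer_instance

lemma coprime_of_dvd {k K : ℕ} (h : Nat.Coprime k K) {e : ℤ} (he : e ∣ (K : ℤ)) :
    IsCoprime (k : ℤ) e :=
  IsCoprime.of_isCoprime_of_dvd_right (Nat.isCoprime_iff_coprime.mpr h) he

lemma coprime_two_mul {k : ℕ} {e : ℤ} (h : IsCoprime (k : ℤ) e) (he : Odd e) :
    IsCoprime (2 * (k : ℤ)) e := by
  refine IsCoprime.mul_left ?_ h
  obtain ⟨m, hm⟩ := he
  exact ⟨-m, 1, by rw [hm]; ring⟩

lemma core_same {q k : ℕ} (hq : 0 < q) {A J e : ℤ} (he : IsCoprime (2 * (k : ℤ)) e)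
    {t u : ℕ} (ht : t < k) (hu : u < k)
    (hdiv : (2 * q * k : ℤ) ∣ (A + J * (q * k) + e * q * t) - (A + J * (q * k) + e * q * u)) :
    t = u := by
  have h1 : (A + J * (q * k) + e * q * t) - (A + J * (q * k) + e * q * u)
      = q * (e * ((t : ℤ) - u)) := by ring
  rw [h1, show (2 * q * k : ℤ) = q * (2 * k) by ring] at hdiv
  have h2 : (2 * k : ℤ) ∣ e * ((t : ℤ) - u) := by
    exact (mul_dvd_mul_iff_left (by exact_mod_cast hq.ne')).mp hdiv
  have h3 : (2 * k : ℤ) ∣ (t : ℤ) - u := he.dvd_of_dvd_mul_left h2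
  obtain ⟨c, hc⟩ := h3
  have h4 : c = 0 := by
    rcases lt_trichotomy c 0 with h | h | h
    · exfalso
      have : (2 * (k : ℤ)) * c ≤ -(2 * k) := by nlinarith
      omega
    · exact h
    · exfalso
      have : (2 * (k : ℤ)) ≤ (2 * (k : ℤ)) * c := by nlinarith
      omega
  rw [h4] at hc
  omega

lemma core_pair {q k : ℕ} (hq : 0 < q) {A A' J J' e e' : ℤ}
    (he : IsCoprime (2 * (k : ℤ)) e) (hp : PairOK q A A' J J' e e')
    {t u : ℕ} (ht : t < k) (hu : u < k)
    (hdiv : (2 * q * k : ℤ) ∣ (A + J * (q * k) + e * q * t) - (A' + J' * (q * k) + e' * q * u)) :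
    False := by
  have hk : 0 < k := by omega
  rcases hp with ⟨h1, h2, h3⟩ | ⟨h1, h2, h3⟩
  · subst h1 h2
    have e1 : (A + J * (q * k) + e * q * t) - (A + J' * (q * k) + e * q * u)
        = q * ((J - J') * k + e * ((t : ℤ) - u)) := by ring
    rw [e1, show (2 * q * k : ℤ) = q * (2 * k) by ring] at hdiv
    have h4 : (2 * k : ℤ) ∣ (J - J') * k + e * ((t : ℤ) - u) :=
      (mul_dvd_mul_iff_left (by exact_mod_cast hq.ne')).mp hdiv
    have h5 : (k : ℤ) ∣ e * ((t : ℤ) - u) := by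
      have h6 : (k : ℤ) ∣ (J - J') * k + e * ((t : ℤ) - u) := (dvd_mul_left _ _).trans h4
      exact (dvd_add_right (dvd_mul_left _ _)).mp h6
    have he' : IsCoprime (k : ℤ) e := he.of_mul_left_right
    have h7 : (k : ℤ) ∣ (t : ℤ) - u := he'.dvd_of_dvd_mul_left h5
    have h8 : t = u := by
      obtain ⟨c, hc⟩ := h7
      have h4 : c = 0 := by
        rcases lt_trichotomy c 0 with h | h | h
        · exfalso
          have : (k : ℤ) * c ≤ -k := by nlinarith
          omega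
        · exact h
        · exfalso
          have : (k : ℤ) ≤ (k : ℤ) * c := by nlinarith
          omega
      rw [h4] at hc
      omega
    rw [h8, sub_self, mul_zero, add_zero] at h4
    have h9 : (2 : ℤ) ∣ J - J' := by
      rw [mul_comm (2 : ℤ), mul_comm (J - J')] at h4
      exact (mul_dvd_mul_iff_left (by exact_mod_cast hk.ne')).mp h4
    have h10 := even_iff_two_dvd.mpr h9
    exact (Int.not_even_iff_odd.mpr h3) h10
  · subst h1 h2
    obtain ⟨m, hm⟩ := h3
    have e1 : (A + J * (q * k) + e * q * t) - (A - e * q + J' * (q * k) + -e * q * u)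
        = q * (e * ((t : ℤ) + u + 1)) + (2 * q * k) * m := by
      have : J = J' + (m + m) := by linarith
      rw [this]; ring
    rw [e1] at hdiv
    have h2 := (dvd_add_left (dvd_mul_right _ _)).mp hdiv
    rw [show (2 * q * k : ℤ) = q * (2 * k) by ring] at h2
    have h3 : (2 * k : ℤ) ∣ e * ((t : ℤ) + u + 1) :=
      (mul_dvd_mul_iff_left (by exact_mod_cast hq.ne')).mp h2
    have h4 : (2 * k : ℤ) ∣ (t : ℤ) + u + 1 := he.dvd_of_dvd_mul_left h3
    have h5 := Int.le_of_dvd (by positivity) h4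
    omega

lemma core_special {q k : ℕ} (hq : 0 < q) {A A' J J' e e' : ℤ}
    (he : IsCoprime (2 * (k : ℤ)) e) (h1 : e' = -e) (h2 : A' = A - 2 * e * q) (h3 : Even (J - J'))
    {t u : ℕ} (ht : t < k) (hu : u + 1 < k)
    (hdiv : (2 * q * k : ℤ) ∣ (A + J * (q * k) + e * q * t) - (A' + J' * (q * k) + e' * q * u)) :
    False := by
  subst h1 h2
  obtain ⟨m, hm⟩ := h3
  have e1 : (A + J * (q * k) + e * q * t) - (A - 2 * e * q + J' * (q * k) + -e * q * u)
      = q * (e * ((t : ℤ) + u + 2)) + (2 * q * k) * m := by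
    have : J = J' + (m + m) := by linarith
    rw [this]; ring
  rw [e1] at hdiv
  have h2 := (dvd_add_left (dvd_mul_right _ _)).mp hdiv
  rw [show (2 * q * k : ℤ) = q * (2 * k) by ring] at h2
  have h3 : (2 * k : ℤ) ∣ e * ((t : ℤ) + u + 2) :=
    (mul_dvd_mul_iff_left (by exact_mod_cast hq.ne')).mp h2
  have h4 : (2 * k : ℤ) ∣ (t : ℤ) + u + 2 := he.dvd_of_dvd_mul_left h3
  have h5 := Int.le_of_dvd (by positivity) h4
  omega

/-- A labelled base with `2 q` rows; `K` collects the numbers to which the multiplier must be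
coprime. -/
structure LBase (q K : ℕ) (α J ε : ℕ → ℤ) : Prop where
  ext_α : α (2 * q) = α 0 + ε 0 * q
  ext_J : J (2 * q) = J 0
  ext_ε : ε (2 * q) = ε 0
  odd : ∀ r, r < 2 * q → Odd (ε r)
  dvd_F : ∀ r, r < 2 * q → ε r ∣ (K : ℤ)
  dvd_G : ∀ r, r < 2 * q → ε r - 2 ∣ (K : ℤ)
  dvd_D : ∀ r, r < 2 * q → ε (r + 1) - ε r ∣ 2 * (K : ℤ)
  F : ∀ r, r < 2 * q → ∀ s, s < 2 * q → r < s → ¬ (s = r + 1 ∧ s + 1 = 2 * q) → (q : ℤ) ∣ α r - α s →
    PairOK q (α r) (α s) (J r) (J s) (ε r) (ε s)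
  G : ∀ r, r < 2 * q → ∀ s, s < 2 * q → r < s → (q : ℤ) ∣ (α r - r) - (α s - s) →
    PairOK q (α r - r) (α s - s) (J r) (J s) (ε r - 2) (ε s - 2)
  S : ε (2 * q - 1) = -ε (2 * q - 2) ∧ α (2 * q - 1) = α (2 * q - 2) - 2 * ε (2 * q - 2) * q ∧
    Even (J (2 * q - 2) - J (2 * q - 1))
  D : ∀ r, r < 2 * q → ∀ s, s < 2 * q → r < s →
    ¬ (2 * (q : ℤ)) ∣ (α (r + 1) - α r + (J (r + 1) - J r) * q) -
      (α (s + 1) - α s + (J (s + 1) - J s) * q)

/-- The integer sequence attached to a base. -/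
def seqOf (q k : ℕ) (α J ε : ℕ → ℤ) (j : ℕ) : ℤ :=
  α (j % (2 * q)) + J (j % (2 * q)) * (q * k) + ε (j % (2 * q)) * q * ((j / (2 * q) : ℕ) : ℤ)

lemma seqOf_succ {q K k : ℕ} (hq : 0 < q) {α J ε : ℕ → ℤ} (B : LBase q K α J ε) (j : ℕ) :
    seqOf q k α J ε (j + 1) = α (j % (2 * q) + 1) + J (j % (2 * q) + 1) * (q * k) +
      ε (j % (2 * q) + 1) * q * ((j / (2 * q) : ℕ) : ℤ) := by
  unfold seqOf
  have hlt : j % (2 * q) < 2 * q := Nat.mod_lt _ (by omega)
  have hj := Nat.div_add_mod j (2 * q)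
  rcases Nat.lt_or_ge (j % (2 * q) + 1) (2 * q) with h | h
  · have h1 : (j + 1) % (2 * q) = j % (2 * q) + 1 := by
      rw [Nat.add_mod, Nat.mod_eq_of_lt (a := 1) (by omega), Nat.mod_eq_of_lt h]
    have h2 : (j + 1) / (2 * q) = j / (2 * q) := by
      apply Nat.div_eq_of_lt_le
      · rw [mul_comm]; omega
      · rw [add_mul, one_mul, mul_comm]; omega
    rw [h1, h2]
  · have h0 : j % (2 * q) + 1 = 2 * q := by omega
    have h3 : j + 1 = (2 * q) * (j / (2 * q) + 1) := by
      rw [mul_add, mul_one]; omega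
    have h1 : (j + 1) % (2 * q) = 0 := by rw [h3]; exact Nat.mul_mod_right _ _
    have h2 : (j + 1) / (2 * q) = j / (2 * q) + 1 := by
      rw [h3]; exact Nat.mul_div_cancel_left _ (by omega)
    rw [h1, h2, h0, B.ext_α, B.ext_J, B.ext_ε]
    push_cast
    ring

theorem existsDNeofield_of_base {q K k : ℕ} (hq : 0 < q) {α J ε : ℕ → ℤ} (B : LBase q K α J ε)
    (hk : Odd k) (hK : Nat.Coprime k K) : ExistsDNeofield (2 * q * k + 1) := by
  have hk0 : 0 < k := hk.pos
  have hqk : 0 < q * k := Nat.mul_pos hq hk0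
  have hn : 2 ≤ 2 * q * k := by rw [mul_assoc]; omega
  have hmod : ∀ i : ℕ, i % (2 * q) < 2 * q := fun i => Nat.mod_lt _ (by omega)
  have hdiv : ∀ i : ℕ, i < 2 * q * k → i / (2 * q) < k := fun i hi =>
    Nat.div_lt_of_lt_mul hi
  have hcE : ∀ i : ℕ, IsCoprime (2 * (k : ℤ)) (ε (i % (2 * q))) := fun i =>
    coprime_two_mul (coprime_of_dvd hK (B.dvd_F _ (hmod i))) (B.odd _ (hmod i))
  have hcG : ∀ i : ℕ, IsCoprime (2 * (k : ℤ)) (ε (i % (2 * q)) - 2) := fun i =>
    coprime_two_mul (coprime_of_dvd hK (B.dvd_G _ (hmod i)))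
      (by
        have := B.odd _ (hmod i)
        obtain ⟨m, hm⟩ := this
        exact ⟨m - 1, by rw [hm]; ring⟩)
  have hrec : ∀ i j : ℕ, i % (2 * q) = j % (2 * q) → i / (2 * q) = j / (2 * q) → i = j := by
    intro i j h1 h2
    rw [← Nat.div_add_mod i (2 * q), ← Nat.div_add_mod j (2 * q), h1, h2]
  -- the key statement for `F`, in one direction
  have keyF : ∀ i j : ℕ, i + 1 < 2 * q * k → j + 1 < 2 * q * k → i % (2 * q) < j % (2 * q) →
      (2 * q * k : ℤ) ∣ seqOf q k α J ε i - seqOf q k α J ε j → False := by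
    intro i j hi hj hlt hd
    have hqd : (q : ℤ) ∣ α (i % (2 * q)) - α (j % (2 * q)) := by
      have h1 : (q : ℤ) ∣ seqOf q k α J ε i - seqOf q k α J ε j :=
        (Dvd.intro_left (2 * k : ℤ) (by ring)).trans hd
      have h2 : seqOf q k α J ε i - seqOf q k α J ε j = (α (i % (2 * q)) - α (j % (2 * q))) +
        q * ((J (i % (2 * q)) - J (j % (2 * q))) * k + ε (i % (2 * q)) * ((i / (2 * q) : ℕ) : ℤ)
          - ε (j % (2 * q)) * ((j / (2 * q) : ℕ) : ℤ)) := by
        unfold seqOf; ring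
      rw [h2] at h1
      exact (dvd_add_left (dvd_mul_right _ _)).mp h1
    by_cases hsp : j % (2 * q) = i % (2 * q) + 1 ∧ j % (2 * q) + 1 = 2 * q
    · obtain ⟨s1, s2⟩ := hsp
      have e1 : j % (2 * q) = 2 * q - 1 := by omega
      have e2 : i % (2 * q) = 2 * q - 2 := by omega
      have hju : j / (2 * q) + 1 < k := by
        by_contra hcon
        have h3 := hdiv j (by omega)
        have h4 : j / (2 * q) = k - 1 := by omega
        have h5 := Nat.div_add_mod j (2 * q)
        rw [h4, e1] at h5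
        have h6 : 2 * q * (k - 1) + 2 * q = 2 * q * k := by
          rw [← Nat.mul_succ]; congr 1; omega
        omega
      obtain ⟨a1, a2, a3⟩ := B.S
      have hcE' := hcE i
      unfold seqOf at hd
      rw [e2] at hcE' hd
      rw [e1] at hd
      exact core_special hq hcE' a1 a2 a3 (hdiv i (by omega)) hju hd
    · have hp := B.F _ (hmod i) _ (hmod j) hlt hsp hqd
      exact core_pair hq (hcE i) hp (hdiv i (by omega)) (hdiv j (by omega)) hd
  have keyG : ∀ i j : ℕ, i + 1 < 2 * q * k → j + 1 < 2 * q * k → i % (2 * q) < j % (2 * q) →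
      (2 * q * k : ℤ) ∣ (seqOf q k α J ε i - i) - (seqOf q k α J ε j - j) → False := by
    intro i j hi hj hlt hd
    have hG : ∀ i : ℕ, seqOf q k α J ε i - i = (α (i % (2 * q)) - (i % (2 * q) : ℕ)) +
        J (i % (2 * q)) * (q * k) + (ε (i % (2 * q)) - 2) * q * ((i / (2 * q) : ℕ) : ℤ) := by
      intro i
      have h5 : (i : ℤ) = 2 * q * ((i / (2 * q) : ℕ) : ℤ) + ((i % (2 * q) : ℕ) : ℤ) := by
        exact_mod_cast (Nat.div_add_mod i (2 * q)).symm
      unfold seqOf
      linear_combination -h5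
    rw [hG, hG] at hd
    have hqd : (q : ℤ) ∣ (α (i % (2 * q)) - (i % (2 * q) : ℕ)) -
        (α (j % (2 * q)) - (j % (2 * q) : ℕ)) := by
      have h1 := (Dvd.intro_left (2 * k : ℤ) (by ring : (2 * k : ℤ) * (q : ℤ) = 2 * q * k)).trans hd
      have h2 : ((α (i % (2 * q)) - (i % (2 * q) : ℕ)) +
        J (i % (2 * q)) * (q * k) + (ε (i % (2 * q)) - 2) * q * ((i / (2 * q) : ℕ) : ℤ)) -
        ((α (j % (2 * q)) - (j % (2 * q) : ℕ)) +
        J (j % (2 * q)) * (q * k) + (ε (j % (2 * q)) - 2) * q * ((j / (2 * q) : ℕ) : ℤ)) =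
        ((α (i % (2 * q)) - (i % (2 * q) : ℕ)) - (α (j % (2 * q)) - (j % (2 * q) : ℕ))) +
        q * ((J (i % (2 * q)) - J (j % (2 * q))) * k +
          (ε (i % (2 * q)) - 2) * ((i / (2 * q) : ℕ) : ℤ)
          - (ε (j % (2 * q)) - 2) * ((j / (2 * q) : ℕ) : ℤ)) := by
        ring
      rw [h2] at h1
      exact (dvd_add_left (dvd_mul_right _ _)).mp h1
    have hp := B.G _ (hmod i) _ (hmod j) hlt hqd
    exact core_pair hq (hcG i) hp (hdiv i (by omega)) (hdiv j (by omega)) hd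
  have conv : ∀ a b : ℤ, ((a : ZMod (2 * q * k)) = (b : ZMod (2 * q * k))) →
      (2 * q * k : ℤ) ∣ a - b := by
    intro a b h
    have h1 := (ZMod.intCast_eq_intCast_iff_dvd_sub b a (2 * q * k)).mp h.symm
    push_cast at h1
    exact h1
  refine existsDNeofield_of_seq (2 * q * k) hn
    (fun j => ((seqOf q k α J ε j : ℤ) : ZMod (2 * q * k))) ?_ ?_ ?_
  · intro i j hi hj h
    have hd := conv _ _ h
    rcases lt_trichotomy (i % (2 * q)) (j % (2 * q)) with hlt | heq | hgt
    · exact (keyF i j hi hj hlt hd).elim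
    · refine hrec i j heq ?_
      unfold seqOf at hd
      rw [← heq] at hd
      exact core_same hq (hcE i) (hdiv i (by omega)) (hdiv j (by omega)) hd
    · refine (keyF j i hj hi hgt ?_).elim
      rw [← dvd_neg, neg_sub]; exact hd
  · intro i j hi hj h
    have h' : (((seqOf q k α J ε i - i : ℤ)) : ZMod (2 * q * k)) =
        (((seqOf q k α J ε j - j : ℤ)) : ZMod (2 * q * k)) := by
      push_cast; exact h
    have hd := conv _ _ h'
    rcases lt_trichotomy (i % (2 * q)) (j % (2 * q)) with hlt | heq | hgt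
    · exact (keyG i j hi hj hlt hd).elim
    · refine hrec i j heq ?_
      have hG : ∀ i : ℕ, seqOf q k α J ε i - i = (α (i % (2 * q)) - (i % (2 * q) : ℕ)) +
          J (i % (2 * q)) * (q * k) + (ε (i % (2 * q)) - 2) * q * ((i / (2 * q) : ℕ) : ℤ) := by
        intro i
        have h5 : (i : ℤ) = 2 * q * ((i / (2 * q) : ℕ) : ℤ) + ((i % (2 * q) : ℕ) : ℤ) := by
          exact_mod_cast (Nat.div_add_mod i (2 * q)).symm
        unfold seqOf
        linear_combination -h5
      rw [hG, hG, ← heq] at hd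
      exact core_same hq (hcG i) (hdiv i (by omega)) (hdiv j (by omega)) hd
    · refine (keyG j i hj hi hgt ?_).elim
      rw [← dvd_neg, neg_sub]; exact hd
  · intro i j hi hj h
    have h' : (((seqOf q k α J ε (i + 1) - seqOf q k α J ε i : ℤ)) : ZMod (2 * q * k)) =
        (((seqOf q k α J ε (j + 1) - seqOf q k α J ε j : ℤ)) : ZMod (2 * q * k)) := by
      push_cast; exact h
    have hd := conv _ _ h'
    rw [seqOf_succ hq B, seqOf_succ hq B] at hd
    unfold seqOf at hd
    have h2D : ∀ r : ℕ, r < 2 * q → ∃ σ : ℤ, ε (r + 1) - ε r = 2 * σ ∧ IsCoprime (k : ℤ) σ := by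
      intro r hr
      have o1 := B.odd r hr
      have o2 : Odd (ε (r + 1)) := by
        rcases Nat.lt_or_ge (r + 1) (2 * q) with h | h
        · exact B.odd _ h
        · have : r + 1 = 2 * q := by omega
          rw [this, B.ext_ε]; exact B.odd 0 (by omega)
      obtain ⟨σ, hσ⟩ := (o2.sub_odd o1)
      refine ⟨σ, by rw [hσ]; ring, ?_⟩
      have h3 := B.dvd_D r hr
      rw [hσ, show σ + σ = 2 * σ by ring] at h3
      exact coprime_of_dvd hK ((mul_dvd_mul_iff_left two_ne_zero).mp h3)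
    have hr : i % (2 * q) = j % (2 * q) := by
      obtain ⟨σ1, e1, -⟩ := h2D _ (hmod i)
      obtain ⟨σ2, e2, -⟩ := h2D _ (hmod j)
      obtain ⟨m, hm⟩ := hk
      have hkz : (k : ℤ) = 2 * m + 1 := by exact_mod_cast hm
      have hd2 : (2 * (q : ℤ)) ∣ (α (i % (2 * q) + 1) - α (i % (2 * q)) +
          (J (i % (2 * q) + 1) - J (i % (2 * q))) * q) -
          (α (j % (2 * q) + 1) - α (j % (2 * q)) +
          (J (j % (2 * q) + 1) - J (j % (2 * q))) * q) := by
        have h4 := (dvd_mul_right (2 * (q : ℤ)) (k : ℤ)).trans hd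
        have h5 : (α (i % (2 * q) + 1) + J (i % (2 * q) + 1) * (q * k) +
            ε (i % (2 * q) + 1) * q * ((i / (2 * q) : ℕ) : ℤ) -
            (α (i % (2 * q)) + J (i % (2 * q)) * (q * k) +
            ε (i % (2 * q)) * q * ((i / (2 * q) : ℕ) : ℤ))) -
            (α (j % (2 * q) + 1) + J (j % (2 * q) + 1) * (q * k) +
            ε (j % (2 * q) + 1) * q * ((j / (2 * q) : ℕ) : ℤ) -
            (α (j % (2 * q)) + J (j % (2 * q)) * (q * k) +
            ε (j % (2 * q)) * q * ((j / (2 * q) : ℕ) : ℤ))) =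
            ((α (i % (2 * q) + 1) - α (i % (2 * q)) +
            (J (i % (2 * q) + 1) - J (i % (2 * q))) * q) -
            (α (j % (2 * q) + 1) - α (j % (2 * q)) +
            (J (j % (2 * q) + 1) - J (j % (2 * q))) * q)) +
            (2 * q) * ((J (i % (2 * q) + 1) - J (i % (2 * q))) * m -
              (J (j % (2 * q) + 1) - J (j % (2 * q))) * m +
              σ1 * ((i / (2 * q) : ℕ) : ℤ) - σ2 * ((j / (2 * q) : ℕ) : ℤ)) := by
          rw [hkz]
          linear_combination (q * ((i / (2 * q) : ℕ) : ℤ)) * e1 - (q * ((j / (2 * q) : ℕ) : ℤ)) * e2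
        rw [h5] at h4
        exact (dvd_add_left (dvd_mul_right _ _)).mp h4
      rcases lt_trichotomy (i % (2 * q)) (j % (2 * q)) with hlt | heq | hgt
      · exact (B.D _ (hmod i) _ (hmod j) hlt hd2).elim
      · exact heq
      · refine (B.D _ (hmod j) _ (hmod i) hgt ?_).elim
        rw [← dvd_neg, neg_sub]; exact hd2
    refine hrec i j hr ?_
    rw [← hr] at hd
    obtain ⟨σ, e1, hσ⟩ := h2D _ (hmod i)
    have h5 : (α (i % (2 * q) + 1) + J (i % (2 * q) + 1) * (q * k) +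
        ε (i % (2 * q) + 1) * q * ((i / (2 * q) : ℕ) : ℤ) -
        (α (i % (2 * q)) + J (i % (2 * q)) * (q * k) +
        ε (i % (2 * q)) * q * ((i / (2 * q) : ℕ) : ℤ))) -
        (α (i % (2 * q) + 1) + J (i % (2 * q) + 1) * (q * k) +
        ε (i % (2 * q) + 1) * q * ((j / (2 * q) : ℕ) : ℤ) -
        (α (i % (2 * q)) + J (i % (2 * q)) * (q * k) +
        ε (i % (2 * q)) * q * ((j / (2 * q) : ℕ) : ℤ))) =
        (2 * q) * (σ * (((i / (2 * q) : ℕ) : ℤ) - ((j / (2 * q) : ℕ) : ℤ))) := by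
      linear_combination (q * (((i / (2 * q) : ℕ) : ℤ) - ((j / (2 * q) : ℕ) : ℤ))) * e1
    rw [h5] at hd
    have h6 : (k : ℤ) ∣ σ * (((i / (2 * q) : ℕ) : ℤ) - ((j / (2 * q) : ℕ) : ℤ)) :=
      (mul_dvd_mul_iff_left (by exact_mod_cast (by omega : 2 * q ≠ 0))).mp hd
    have h7 := hσ.dvd_of_dvd_mul_left h6
    have ti := hdiv i (by omega)
    have tj := hdiv j (by omega)
    generalize i / (2 * q) = t at h7 ti ⊢
    generalize j / (2 * q) = u at h7 tj ⊢
    obtain ⟨c, hc⟩ := h7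
    have h4 : c = 0 := by
      rcases lt_trichotomy c 0 with h | h | h
      · exfalso
        have : (k : ℤ) * c ≤ -k := by nlinarith
        omega
      · exact h
      · exfalso
        have : (k : ℤ) ≤ (k : ℤ) * c := by nlinarith
        omega
    rw [h4] at hc
    omega

end Pool.Agent.DNeo
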