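import Pool.Agent.DNeo.Basic

namespace Pool.Agent.DNeo

/-- Even `n = 2h + 2`: a D-neofield of order `n + 1` from an even function `c` on `[-h, h]`. -/
theorem existsDNeofield_of_even (h : ℕ) (c : ℤ → ℤ)
    (hpar : ∀ i : ℤ, -h ≤ i → i ≤ h → (c i + i) % 2 = 0)
    (hev : ∀ i : ℤ, -h ≤ i → i ≤ h → c (-i) = c i)
    (hx : ∀ i j : ℤ, -h ≤ i → i ≤ h → -h ≤ j → j ≤ h →
      (2 * (2 * (h : ℤ) + 2)) ∣ (c i + i) - (c j + j) → i = j)
    (he : ∀ i j : ℤ, -h ≤ i → i < h → -h ≤ j → j < h →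
      (2 * (2 * (h : ℤ) + 2)) ∣ (c (i + 1) - c i) - (c (j + 1) - c j) → i = j) :
    ExistsDNeofield (2 * h + 3) := by
  have key : ExistsDNeofield ((2 * h + 2) + 1) := by
    refine existsDNeofield_of_seq (2 * h + 2) (by omega)
      (fun j => (((c ((j : ℤ) - h) + ((j : ℤ) - h)) / 2 : ℤ) : ZMod (2 * h + 2))) ?_ ?_ ?_
    · intro i j hi hj hij
      rw [ZMod.intCast_eq_intCast_iff_dvd_sub] at hij
      obtain ⟨k, hk⟩ := hij
      have h1 := hpar ((i : ℤ) - h) (by omega) (by omega)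
      have h2 := hpar ((j : ℤ) - h) (by omega) (by omega)
      have := hx ((j : ℤ) - h) ((i : ℤ) - h) (by omega) (by omega) (by omega) (by omega)
        ⟨k, by
          have t1 : (c ((i : ℤ) - h) + ((i : ℤ) - h)) = 2 * ((c ((i : ℤ) - h) + ((i : ℤ) - h)) / 2) := by
            omega
          have t2 : (c ((j : ℤ) - h) + ((j : ℤ) - h)) = 2 * ((c ((j : ℤ) - h) + ((j : ℤ) - h)) / 2) := by
            omega
          push_cast at hk
          linear_combination 2 * hk + t2 - t1⟩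
      omega
    · intro i j hi hj hij
      have hij2 : (((c ((i : ℤ) - h) - ((i : ℤ) - h)) / 2 : ℤ) : ZMod (2 * h + 2)) =
          (((c ((j : ℤ) - h) - ((j : ℤ) - h)) / 2 : ℤ) : ZMod (2 * h + 2)) := by
        have e : ∀ i : ℕ, ((((c ((i : ℤ) - h) - ((i : ℤ) - h)) / 2 : ℤ)) : ZMod (2 * h + 2)) =
            ((((c ((i : ℤ) - h) + ((i : ℤ) - h)) / 2 : ℤ)) : ZMod (2 * h + 2)) - (i : ZMod (2 * h + 2))
              + (h : ZMod (2 * h + 2)) := by
          intro i
          have : (c ((i : ℤ) - h) - ((i : ℤ) - h)) / 2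
              = (c ((i : ℤ) - h) + ((i : ℤ) - h)) / 2 - (i : ℤ) + (h : ℤ) := by omega
          rw [this]; push_cast; ring
        rw [e, e, hij]
      rw [ZMod.intCast_eq_intCast_iff_dvd_sub] at hij2
      obtain ⟨k, hk⟩ := hij2
      have h1 := hpar ((i : ℤ) - h) (by omega) (by omega)
      have h2 := hpar ((j : ℤ) - h) (by omega) (by omega)
      have e1 := hev ((i : ℤ) - h) (by omega) (by omega)
      have e2 := hev ((j : ℤ) - h) (by omega) (by omega)
      have := hx (-((j : ℤ) - h)) (-((i : ℤ) - h)) (by omega) (by omega) (by omega) (by omega)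
        ⟨k, by
          rw [e1, e2]
          have t1 : (c ((i : ℤ) - h) - ((i : ℤ) - h)) = 2 * ((c ((i : ℤ) - h) - ((i : ℤ) - h)) / 2) := by
            omega
          have t2 : (c ((j : ℤ) - h) - ((j : ℤ) - h)) = 2 * ((c ((j : ℤ) - h) - ((j : ℤ) - h)) / 2) := by
            omega
          push_cast at hk
          linear_combination 2 * hk + t2 - t1⟩
      omega
    · intro i j hi hj hij
      have hij2 : (((c ((i : ℤ) + 1 - h) + ((i : ℤ) + 1 - h)) / 2 - (c ((i : ℤ) - h) + ((i : ℤ) - h)) / 2 : ℤ) : ZMod (2 * h + 2)) =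
          (((c ((j : ℤ) + 1 - h) + ((j : ℤ) + 1 - h)) / 2 - (c ((j : ℤ) - h) + ((j : ℤ) - h)) / 2 : ℤ) : ZMod (2 * h + 2)) := by
        push_cast at hij ⊢
        exact hij
      rw [ZMod.intCast_eq_intCast_iff_dvd_sub] at hij2
      obtain ⟨k, hk⟩ := hij2
      have h1 := hpar ((i : ℤ) - h) (by omega) (by omega)
      have h2 := hpar ((j : ℤ) - h) (by omega) (by omega)
      have h3 := hpar ((i : ℤ) + 1 - h) (by omega) (by omega)
      have h4 := hpar ((j : ℤ) + 1 - h) (by omega) (by omega)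
      have := he ((j : ℤ) - h) ((i : ℤ) - h) (by omega) (by omega) (by omega) (by omega)
        ⟨k, by
          have r1 : (i : ℤ) - h + 1 = (i : ℤ) + 1 - h := by ring
          have r2 : (j : ℤ) - h + 1 = (j : ℤ) + 1 - h := by ring
          rw [r1, r2]
          have t1 : (c ((i : ℤ) - h) + ((i : ℤ) - h)) = 2 * ((c ((i : ℤ) - h) + ((i : ℤ) - h)) / 2) := by
            omega
          have t2 : (c ((j : ℤ) - h) + ((j : ℤ) - h)) = 2 * ((c ((j : ℤ) - h) + ((j : ℤ) - h)) / 2) := by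
            omega
          have t3 : (c ((i : ℤ) + 1 - h) + ((i : ℤ) + 1 - h)) = 2 * ((c ((i : ℤ) + 1 - h) + ((i : ℤ) + 1 - h)) / 2) := by
            omega
          have t4 : (c ((j : ℤ) + 1 - h) + ((j : ℤ) + 1 - h)) = 2 * ((c ((j : ℤ) + 1 - h) + ((j : ℤ) + 1 - h)) / 2) := by
            omega
          push_cast at hk
          linear_combination 2 * hk + t4 - t2 - t3 + t1⟩
      omega
  exact key

end Pool.Agent.DNeo
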